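import Pool.Agent.Helper51.CP.Defs

/-! # Module TH: the Toeplitz-Hausdorff theorem -/

namespace Pool.Agent.Helper71.CP
open Pool.Agent.Helper51.CP
open Complex MeasureTheory Set

namespace THm

variable {E : Type*} [NormedAddCommGroup E] [InnerProductSpace ℂ E]

lemma norm_case (B : E →L[ℂ] E) (x y : E) (hx : ‖x‖ = 1) (hy : ‖y‖ = 1)
    (h0 : inner ℂ x (B x) = 0) (h1 : inner ℂ y (B y) = 1) (t : ℝ) (ht : t ∈ Icc (0:ℝ) 1) :
    ∃ z : E, ‖z‖ = 1 ∧ inner ℂ z (B z) = (t : ℂ) := by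
  -- choose the phase
  obtain ⟨c, hc1, hc2⟩ : ∃ c : ℂ, ‖c‖ = 1 ∧
      (inner ℂ (c • x) (B y) + inner ℂ y (B (c • x))).im = 0 := by
    set p := inner ℂ x (B y) with hp
    set q := inner ℂ y (B x) with hq
    have key : ∀ c : ℂ, (inner ℂ (c • x) (B y) + inner ℂ y (B (c • x))).im =
        (c * (q - (starRingEnd ℂ) p)).im := by
      intro c
      rw [map_smul, inner_smul_left, inner_smul_right, ← hp, ← hq]
      simp only [add_im, mul_im, sub_re, sub_im, conj_re, conj_im]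
      ring
    set w := q - (starRingEnd ℂ) p with hw
    by_cases hw0 : w = 0
    · exact ⟨1, by simp, by rw [key, hw0]; simp⟩
    · have hn : ‖w‖ ≠ 0 := norm_ne_zero_iff.2 hw0
      refine ⟨(starRingEnd ℂ) w / ‖w‖, ?_, ?_⟩
      · rw [norm_div, RCLike.norm_conj, Complex.norm_real, norm_norm, div_self hn]
      · rw [key, div_mul_eq_mul_div, mul_comm, mul_conj, normSq_eq_norm_sq]
        rw [← ofReal_div, ofReal_im]
  set x' := c • x with hx'
  have hx'n : ‖x'‖ = 1 := by rw [hx', norm_smul, hc1, hx, one_mul]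
  have hx'0 : inner ℂ x' (B x') = 0 := by
    rw [hx', map_smul, inner_smul_left, inner_smul_right, h0]; simp
  set r : ℝ := (inner ℂ x' (B y) + inner ℂ y (B x')).re with hr
  have hr' : inner ℂ x' (B y) + inner ℂ y (B x') = (r : ℂ) := by
    apply Complex.ext
    · rw [ofReal_re]
    · rw [ofReal_im, hc2]
  set z : ℝ → E := fun s => ((1 - s : ℝ) : ℂ) • x' + (s : ℂ) • y with hz
  have hzB : ∀ s : ℝ, inner ℂ (z s) (B (z s)) = ((s ^ 2 + (1 - s) * s * r : ℝ) : ℂ) := by
    intro s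
    have : inner ℂ (z s) (B (z s)) = ((1 - s : ℝ) : ℂ) ^ 2 * inner ℂ x' (B x') +
        (s : ℂ) ^ 2 * inner ℂ y (B y) + ((1 - s : ℝ) : ℂ) * s *
          (inner ℂ x' (B y) + inner ℂ y (B x')) := by
      simp only [hz, map_add, map_smul, inner_add_left, inner_add_right, inner_smul_left,
        inner_smul_right, conj_ofReal]
      ring
    rw [this, hx'0, h1, hr']
    push_cast
    ring
  have hz0 : ∀ s : ℝ, z s ≠ 0 := by
    intro s hs
    have e1 : ((1 - s : ℝ) : ℂ) • x' = -((s : ℂ) • y) := eq_neg_of_add_eq_zero_left hs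
    have e2 : inner ℂ (((1 - s : ℝ) : ℂ) • x') (B (((1 - s : ℝ) : ℂ) • x')) = (s : ℂ) ^ 2 := by
      rw [e1, map_neg, inner_neg_neg, map_smul, inner_smul_left, inner_smul_right, conj_ofReal, h1]
      ring
    rw [map_smul, inner_smul_left, inner_smul_right, hx'0, mul_zero, mul_zero] at e2
    have e3 : s = 0 := by
      have := pow_eq_zero_iff (two_ne_zero) |>.1 e2.symm
      exact_mod_cast this
    subst e3
    have e4 : z 0 = x' := by simp [hz]
    rw [e4] at hs
    rw [hs, norm_zero] at hx'n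
    exact zero_ne_one hx'n
  have hzc : Continuous z := by
    simp only [hz]
    fun_prop
  set F : ℝ → ℝ := fun s => (s ^ 2 + (1 - s) * s * r) / ‖z s‖ ^ 2 with hF
  have hFc : Continuous F := by
    refine Continuous.div (by fun_prop) (hzc.norm.pow 2) (fun s => ?_)
    exact pow_ne_zero 2 (norm_ne_zero_iff.2 (hz0 s))
  have hF0 : F 0 = 0 := by simp [hF]
  have hF1 : F 1 = 1 := by
    have : z 1 = y := by simp [hz]
    simp [hF, this, hy]
  have hivt := intermediate_value_Icc (zero_le_one (α := ℝ)) hFc.continuousOn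
  rw [hF0, hF1] at hivt
  obtain ⟨s, -, hs⟩ := hivt ht
  have hn : ‖z s‖ ≠ 0 := norm_ne_zero_iff.2 (hz0 s)
  refine ⟨((‖z s‖⁻¹ : ℝ) : ℂ) • z s, ?_, ?_⟩
  · rw [norm_smul, Complex.norm_real, norm_inv, norm_norm, inv_mul_cancel₀ hn]
  · rw [map_smul, inner_smul_left, inner_smul_right, conj_ofReal, hzB, ← hs]
    rw [← ofReal_mul, ← ofReal_mul]
    congr 1
    simp only [hF]
    field_simp

end THm

open THm in
theorem st_TH.{u} : ST_TH.{u} := by
  intro E _ _ B
  rintro a ⟨x, hx, ha⟩ b ⟨y, hy, hb⟩ α β hα hβ hαβ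
  by_cases hab : a = b
  · refine ⟨x, hx, ?_⟩
    rw [← hab, ← add_smul, hαβ, one_smul, ha]
  have hba : b - a ≠ 0 := sub_ne_zero.2 (Ne.symm hab)
  have hxx : inner ℂ x x = (1 : ℂ) := by
    rw [inner_self_eq_norm_sq_to_K, hx]; simp
  have hyy : inner ℂ y y = (1 : ℂ) := by
    rw [inner_self_eq_norm_sq_to_K, hy]; simp
  set B' : E →L[ℂ] E := (b - a)⁻¹ • (B - a • ContinuousLinearMap.id ℂ E) with hB'
  have key : ∀ z : E, inner ℂ z (B' z) = (b - a)⁻¹ * (inner ℂ z (B z) - a * inner ℂ z z) := by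
    intro z
    have : B' z = (b - a)⁻¹ • (B z - a • z) := rfl
    rw [this, inner_smul_right, inner_sub_right, inner_smul_right]
  obtain ⟨z, hz, hzt⟩ := norm_case B' x y hx hy (by rw [key, hxx, ← ha]; ring)
    (by rw [key, hyy, ← hb, mul_one, inv_mul_cancel₀ hba]) β ⟨hβ, by linarith⟩
  refine ⟨z, hz, ?_⟩
  have hzz : inner ℂ z z = (1 : ℂ) := by
    rw [inner_self_eq_norm_sq_to_K, hz]; simp
  rw [key, hzz, mul_one, inv_mul_eq_iff_eq_mul₀ hba] at hzt
  have hα' : α = 1 - β := by linarith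
  rw [real_smul, real_smul, hα']
  push_cast
  linear_combination -hzt

end Pool.Agent.Helper71.CP
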