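import Pool.Agent.Helper56.CP.Stmts

set_option autoImplicit false

open Finset Filter Topology

namespace Pool.Agent.Helper56.CP

/-- weighted sum of primes -/
noncomputable def mtA (n : ℕ) : ℝ := ∑ p ∈ PP n, Real.log p / p

theorem mtA_le {n : ℕ} (hn : 1 ≤ n) : mtA n ≤ Real.log n + Real.log 4 := by
  have hn' : (0 : ℝ) < n := by exact_mod_cast hn
  unfold mtA
  set P := PP n with hP
  have hprime : ∀ p ∈ P, p.Prime := fun p hp => (Finset.mem_filter.mp hp).2
  have hdvd : ∏ p ∈ P, p ^ (n / p) ∣ n.factorial := by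
    refine Finset.prod_dvd_of_isRelPrime (fun p hp q hq hpq => ?_) (fun p hp => ?_)
    · exact Nat.coprime_iff_isRelPrime.mp (Nat.Coprime.pow _ _
        ((Nat.coprime_primes (hprime p hp) (hprime q hq)).mpr hpq))
    · rw [(hprime p hp).pow_dvd_factorial_iff (b := Nat.log p n + 2) (by omega)]
      have h1 : n / p ^ 1 ≤ ∑ i ∈ Finset.Ico 1 (Nat.log p n + 2), n / p ^ i :=
        Finset.single_le_sum (f := fun i => n / p ^ i) (fun _ _ => Nat.zero_le _)
          (Finset.mem_Ico.mpr ⟨le_rfl, by omega⟩)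
      rwa [pow_one] at h1
  have h1 : ((∏ p ∈ P, p ^ (n / p) : ℕ) : ℝ) ≤ (n.factorial : ℝ) := by
    exact_mod_cast Nat.le_of_dvd n.factorial_pos hdvd
  have h2 : (n.factorial : ℝ) ≤ (n : ℝ) ^ n := by exact_mod_cast Nat.factorial_le_pow n
  have hpos : (0 : ℝ) < ((∏ p ∈ P, p ^ (n / p) : ℕ) : ℝ) := by
    have : 0 < ∏ p ∈ P, p ^ (n / p) := Finset.prod_pos fun p hp => pow_pos (hprime p hp).pos _
    exact_mod_cast this
  have h3 := Real.log_le_log hpos (h1.trans h2)
  rw [Real.log_pow] at h3
  push_cast at h3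
  rw [Real.log_prod (fun p hp => by
    have : (0 : ℝ) < p := by exact_mod_cast (hprime p hp).pos
    positivity)] at h3
  simp only [Real.log_pow] at h3
  have h4 : ∀ p ∈ P, (n : ℝ) * (Real.log p / p) - Real.log p ≤ ((n / p : ℕ) : ℝ) * Real.log p := by
    intro p hp
    have hp0 : (0 : ℝ) < p := by exact_mod_cast (hprime p hp).pos
    have hlog : 0 ≤ Real.log p := Real.log_nonneg (by exact_mod_cast (hprime p hp).one_le)
    have h5 : (n : ℝ) / p - 1 ≤ ((n / p : ℕ) : ℝ) := by
      have h6 : n < p * (n / p + 1) := Nat.lt_mul_div_succ n (hprime p hp).pos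
      have h7 : (n : ℝ) < p * (((n / p : ℕ) : ℝ) + 1) := by exact_mod_cast h6
      have h8 : (n : ℝ) / p < ((n / p : ℕ) : ℝ) + 1 := by
        rw [div_lt_iff₀ hp0]
        linarith
      linarith
    calc (n : ℝ) * (Real.log p / p) - Real.log p = ((n : ℝ) / p - 1) * Real.log p := by
          field_simp
      _ ≤ _ := mul_le_mul_of_nonneg_right h5 hlog
  have h5 := Finset.sum_le_sum h4
  rw [Finset.sum_sub_distrib, ← Finset.mul_sum] at h5
  have h6 : ∑ p ∈ P, Real.log p ≤ Real.log 4 * n := by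
    have h7 := Chebyshev.theta_le_log4_mul_x (x := (n : ℝ)) hn'.le
    refine le_trans (le_of_eq ?_) h7
    rw [Chebyshev.theta_eq_sum_Icc, Nat.floor_natCast]
    refine Finset.sum_congr ?_ fun _ _ => rfl
    ext p
    rw [hP, PP, Finset.mem_filter, Finset.mem_filter, Finset.mem_range, Finset.mem_Icc]
    constructor
    · rintro ⟨h8, h9⟩
      exact ⟨⟨Nat.zero_le _, by omega⟩, h9⟩
    · rintro ⟨⟨-, h8⟩, h9⟩
      exact ⟨by omega, h9⟩
  have h7 : (n : ℝ) * ∑ p ∈ P, Real.log p / p ≤ n * (Real.log n + Real.log 4) := by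
    linarith
  exact le_of_mul_le_mul_left h7 hn'

theorem mt_step (k : ℕ) (hk : 2 ≤ k) :
    Real.log k / (k * ((k : ℝ) - 1)) ≤
      (Real.log ((k : ℝ) - 1) + 2) / ((k : ℝ) - 1) - (Real.log k + 2) / k := by
  have hk' : (2 : ℝ) ≤ k := by exact_mod_cast hk
  have h0 : (0 : ℝ) < k := by linarith
  have h1 : (0 : ℝ) < (k : ℝ) - 1 := by linarith
  have h2 : Real.log k - Real.log ((k : ℝ) - 1) ≤ 1 / ((k : ℝ) - 1) := by
    rw [← Real.log_div h0.ne' h1.ne']
    have h3 := Real.log_le_sub_one_of_pos (x := (k : ℝ) / ((k : ℝ) - 1)) (by positivity)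
    have h4 : (k : ℝ) / ((k : ℝ) - 1) - 1 = 1 / ((k : ℝ) - 1) := by
      field_simp
      ring
    linarith
  have h3 : (k : ℝ) * (Real.log k - Real.log ((k : ℝ) - 1)) ≤ 2 := by
    have h4 : (k : ℝ) * (1 / ((k : ℝ) - 1)) ≤ 2 := by
      rw [mul_one_div, div_le_iff₀ h1]
      linarith
    have h5 := mul_le_mul_of_nonneg_left h2 h0.le
    linarith
  have h6 : (Real.log ((k : ℝ) - 1) + 2) / ((k : ℝ) - 1) - (Real.log k + 2) / k =
      ((Real.log ((k : ℝ) - 1) + 2) * k - (Real.log k + 2) * ((k : ℝ) - 1)) /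
        (k * ((k : ℝ) - 1)) := by
    field_simp
  rw [h6]
  apply div_le_div_of_nonneg_right _ (by positivity)
  nlinarith

theorem mt_sum (n : ℕ) (hn : 1 ≤ n) :
    ∑ k ∈ Icc 2 n, Real.log k / (k * ((k : ℝ) - 1)) ≤ 2 - (Real.log n + 2) / n := by
  induction n, hn using Nat.le_induction with
  | base => simp
  | succ n hn ih =>
    rw [Finset.sum_Icc_succ_top (by omega)]
    have h := mt_step (n + 1) (by omega)
    push_cast at h ⊢
    rw [add_sub_cancel_right] at h ⊢
    linarith

theorem mtA_ge {n : ℕ} (hn : 1 ≤ n) : Real.log n - 3 ≤ mtA n := by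
  have hn' : (0 : ℝ) < n := by exact_mod_cast hn
  have hfac : (n.factorial : ℝ) ≠ 0 := by exact_mod_cast n.factorial_ne_zero
  have hfac0 : (0 : ℝ) < n.factorial := by exact_mod_cast n.factorial_pos
  have h1 : (n : ℝ) * Real.log n - n ≤ Real.log n.factorial := by
    have h2 := Real.pow_div_factorial_le_exp (x := (n : ℝ)) hn'.le n
    have h3 := Real.log_le_log (by positivity) h2
    rw [Real.log_exp, Real.log_div (by positivity) hfac, Real.log_pow] at h3
    linarith
  have h2 : Real.log n.factorial ≤ ∑ p ∈ PP n, (n : ℝ) * (Real.log p / ((p : ℝ) - 1)) := by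
    rw [Real.log_nat_eq_sum_factorization, Finsupp.sum]
    have hsub : n.factorial.factorization.support ⊆ PP n := by
      intro p hp
      rw [Nat.support_factorization] at hp
      have hpp := Nat.prime_of_mem_primeFactors hp
      have hdv := Nat.dvd_of_mem_primeFactors hp
      have := (hpp.dvd_factorial).1 hdv
      exact Finset.mem_filter.2 ⟨Finset.mem_range.2 (by omega), hpp⟩
    have hle : ∀ p ∈ PP n, (n.factorial.factorization p : ℝ) * Real.log p ≤
        (n : ℝ) * (Real.log p / ((p : ℝ) - 1)) := by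
      intro p hp
      have hpp : p.Prime := (Finset.mem_filter.1 hp).2
      haveI : Fact p.Prime := ⟨hpp⟩
      have hp2 : (2 : ℝ) ≤ p := by exact_mod_cast hpp.two_le
      have hlog : 0 ≤ Real.log p := Real.log_nonneg (by linarith)
      have h3 : (p - 1) * padicValNat p n.factorial = n - (p.digits n).sum :=
        sub_one_mul_padicValNat_factorial n
      have h4 : (p - 1) * n.factorial.factorization p ≤ n := by
        rw [Nat.factorization_def _ hpp, h3]
        omega
      have h5 : ((p : ℝ) - 1) * (n.factorial.factorization p : ℝ) ≤ n := by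
        have h6 : (((p - 1) * n.factorial.factorization p : ℕ) : ℝ) ≤ (n : ℝ) := by
          exact_mod_cast h4
        rw [Nat.cast_mul, Nat.cast_sub hpp.one_le] at h6
        simpa using h6
      have h6 : (n.factorial.factorization p : ℝ) ≤ n / ((p : ℝ) - 1) := by
        rw [le_div_iff₀ (by linarith)]
        linarith
      calc (n.factorial.factorization p : ℝ) * Real.log p ≤ n / ((p : ℝ) - 1) * Real.log p :=
            mul_le_mul_of_nonneg_right h6 hlog
        _ = _ := by ring
    calc ∑ p ∈ n.factorial.factorization.support,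
          (n.factorial.factorization p : ℝ) * Real.log p
        ≤ ∑ p ∈ PP n, (n.factorial.factorization p : ℝ) * Real.log p := by
          apply Finset.sum_le_sum_of_subset_of_nonneg hsub
          intro p hp _
          have hpp : p.Prime := (Finset.mem_filter.1 hp).2
          have hp2 : (1 : ℝ) ≤ p := by exact_mod_cast hpp.one_le
          exact mul_nonneg (Nat.cast_nonneg _) (Real.log_nonneg hp2)
      _ ≤ _ := Finset.sum_le_sum hle
  rw [← Finset.mul_sum] at h2
  have h3 : (n : ℝ) * (Real.log n - 1) ≤ n * ∑ p ∈ PP n, Real.log p / ((p : ℝ) - 1) := by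
    linarith
  have h4 := le_of_mul_le_mul_left h3 hn'
  have h5 : ∑ p ∈ PP n, Real.log p / ((p : ℝ) - 1) =
      mtA n + ∑ p ∈ PP n, Real.log p / (p * ((p : ℝ) - 1)) := by
    unfold mtA
    rw [← Finset.sum_add_distrib]
    refine Finset.sum_congr rfl fun p hp => ?_
    have hpp : p.Prime := (Finset.mem_filter.1 hp).2
    have hp2 : (2 : ℝ) ≤ p := by exact_mod_cast hpp.two_le
    have h6 : (p : ℝ) - 1 ≠ 0 := by linarith
    have h7 : (p : ℝ) ≠ 0 := by linarith
    field_simp
    ring
  have h6 : ∑ p ∈ PP n, Real.log p / (p * ((p : ℝ) - 1)) ≤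
      ∑ k ∈ Icc 2 n, Real.log k / (k * ((k : ℝ) - 1)) := by
    apply Finset.sum_le_sum_of_subset_of_nonneg
    · intro p hp
      have h7 := Finset.mem_filter.1 hp
      have h8 := Finset.mem_range.1 h7.1
      exact Finset.mem_Icc.2 ⟨h7.2.two_le, by omega⟩
    · intro k hk _
      have h7 : (2 : ℝ) ≤ k := by exact_mod_cast (Finset.mem_Icc.1 hk).1
      have h8 : 0 ≤ Real.log k := Real.log_nonneg (by linarith)
      have h9 : 0 ≤ (k : ℝ) - 1 := by linarith
      positivity
  have h7 := mt_sum n hn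
  have h8 : 0 ≤ (Real.log n + 2) / n := by
    have : 0 ≤ Real.log n := Real.log_nonneg (by exact_mod_cast hn)
    positivity
  linarith

/-- error term -/
noncomputable def mtE (n : ℕ) : ℝ := mtA n - Real.log n

theorem mtE_abs {n : ℕ} (hn : 1 ≤ n) : |mtE n| ≤ 3 := by
  have h1 := mtA_le hn
  have h2 := mtA_ge hn
  have h3 : Real.log 4 ≤ 2 := by
    have h4 := Real.log_two_lt_d9
    have h5 : Real.log 4 = 2 * Real.log 2 := by
      rw [show (4 : ℝ) = 2 ^ 2 by norm_num, Real.log_pow]
      norm_num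
    linarith
  unfold mtE
  rw [abs_le]
  constructor <;> linarith

/-- reciprocal of the logarithm -/
noncomputable def mtf (n : ℕ) : ℝ := 1 / Real.log n

theorem mtf_anti {k : ℕ} (hk : 2 ≤ k) : mtf (k + 1) ≤ mtf k := by
  unfold mtf
  have hk' : (2 : ℝ) ≤ k := by exact_mod_cast hk
  apply one_div_le_one_div_of_le (Real.log_pos (by linarith))
  apply Real.log_le_log (by linarith)
  push_cast
  linarith

theorem mt_PP_succ (n : ℕ) (g : ℕ → ℝ) : ∑ p ∈ PP (n + 1), g p =
    ∑ p ∈ PP n, g p + if (n + 1).Prime then g (n + 1) else 0 := by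
  unfold PP
  rw [Finset.range_add_one (n := n + 1), Finset.filter_insert]
  split_ifs with h
  · rw [Finset.sum_insert]
    · ring
    · simp
  · ring

/-- remainder terms -/
noncomputable def mtc (k : ℕ) : ℝ := mtE k * (mtf k - mtf (k + 1)) +
  ((Real.log ((k + 1 : ℕ) : ℝ) - Real.log k) / Real.log ((k + 1 : ℕ) : ℝ) -
    (Real.log (Real.log ((k + 1 : ℕ) : ℝ)) - Real.log (Real.log k)))

theorem mtc_abs {k : ℕ} (hk : 2 ≤ k) : |mtc k| ≤ 4 * (mtf k - mtf (k + 1)) := by
  have hk' : (2 : ℝ) ≤ k := by exact_mod_cast hk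
  have hE := mtE_abs (n := k) (by omega)
  have hf := mtf_anti hk
  set a : ℝ := Real.log k with ha
  set b : ℝ := Real.log ((k + 1 : ℕ) : ℝ) with hb
  have ha0 : 0 < a := Real.log_pos (by linarith)
  have hab : a ≤ b := by
    apply Real.log_le_log (by linarith)
    push_cast
    linarith
  have hb0 : 0 < b := by linarith
  have hba : b - a ≤ 1 := by
    rw [ha, hb, ← Real.log_div (by positivity) (by positivity)]
    have h3 := Real.log_le_sub_one_of_pos (x := ((k + 1 : ℕ) : ℝ) / k) (by positivity)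
    have h4 : ((k + 1 : ℕ) : ℝ) / k - 1 = 1 / k := by
      push_cast
      field_simp
      ring
    have h5 : (1 : ℝ) / k ≤ 1 := by
      rw [div_le_one (by linarith)]
      linarith
    linarith
  have hmf : mtf k - mtf (k + 1) = 1 / a - 1 / b := rfl
  have h1 : (b - a) / b ≤ Real.log b - Real.log a := by
    have h3 := Real.log_le_sub_one_of_pos (x := a / b) (by positivity)
    rw [Real.log_div ha0.ne' hb0.ne'] at h3
    have h4 : (b - a) / b = 1 - a / b := by
      field_simp
    linarith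
  have h2 : Real.log b - Real.log a ≤ (b - a) / a := by
    have h3 := Real.log_le_sub_one_of_pos (x := b / a) (by positivity)
    rw [Real.log_div hb0.ne' ha0.ne'] at h3
    have h4 : (b - a) / a = b / a - 1 := by
      field_simp
    linarith
  have h3 : |(b - a) / b - (Real.log b - Real.log a)| ≤ 1 / a - 1 / b := by
    have h4 : (b - a) / a - (b - a) / b = (b - a) * (1 / a - 1 / b) := by ring
    have h5 : 0 ≤ 1 / a - 1 / b := by
      rw [← hmf]
      linarith
    have h6 : (b - a) * (1 / a - 1 / b) ≤ 1 * (1 / a - 1 / b) :=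
      mul_le_mul_of_nonneg_right hba h5
    rw [abs_le]
    constructor <;> linarith
  have h4 : |mtE k * (mtf k - mtf (k + 1))| ≤ 3 * (mtf k - mtf (k + 1)) := by
    rw [abs_mul, abs_of_nonneg (a := mtf k - mtf (k + 1)) (by linarith)]
    exact mul_le_mul_of_nonneg_right hE (by linarith)
  have h5 : mtc k = mtE k * (mtf k - mtf (k + 1)) +
      ((b - a) / b - (Real.log b - Real.log a)) := rfl
  rw [h5]
  refine (abs_add_le _ _).trans ?_
  rw [hmf] at h4 ⊢
  linarith

/-- the quantity of the second theorem of Mertens -/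
noncomputable def mtu (n : ℕ) : ℝ := ∑ p ∈ PP n, 1 / (p : ℝ) - Real.log (Real.log n)

theorem mtu_step {k : ℕ} (hk : 2 ≤ k) :
    mtu (k + 1) - mtE (k + 1) * mtf (k + 1) = mtu k - mtE k * mtf k + mtc k := by
  have hk' : (2 : ℝ) ≤ k := by exact_mod_cast hk
  have hb0 : 0 < Real.log ((k + 1 : ℕ) : ℝ) := by
    apply Real.log_pos
    push_cast
    linarith
  unfold mtu mtc mtE mtA
  rw [mt_PP_succ, mt_PP_succ]
  have h1 : (if (k + 1).Prime then 1 / (((k + 1 : ℕ) : ℕ) : ℝ) else 0) =
      (if (k + 1).Prime then Real.log ((k + 1 : ℕ) : ℝ) / ((k + 1 : ℕ) : ℝ) else 0) *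
        mtf (k + 1) := by
    split_ifs
    · unfold mtf
      field_simp
    · simp
  rw [h1]
  have h2 : (Real.log ((k + 1 : ℕ) : ℝ) - Real.log k) / Real.log ((k + 1 : ℕ) : ℝ) =
      (Real.log ((k + 1 : ℕ) : ℝ) - Real.log k) * mtf (k + 1) := by
    unfold mtf
    ring
  rw [h2]
  ring

theorem mtu_eq (N : ℕ) : mtu (N + 2) = mtu 2 - mtE 2 * mtf 2 + mtE (N + 2) * mtf (N + 2) +
    ∑ j ∈ range N, mtc (j + 2) := by
  induction N with
  | zero => simp
  | succ N ih =>
    rw [Finset.sum_range_succ]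
    have h := mtu_step (k := N + 2) (by omega)
    have h2 : N + 1 + 2 = N + 2 + 1 := by ring
    rw [h2]
    linarith

theorem st_M2 : ST_M2 := by
  have hs0 : Summable fun j : ℕ => mtf (j + 2) - mtf (j + 2 + 1) := by
    apply summable_of_sum_range_le (c := mtf 2)
    · intro j
      have := mtf_anti (k := j + 2) (by omega)
      linarith
    · intro n
      have h1 : ∑ i ∈ range n, (mtf (i + 2) - mtf (i + 2 + 1)) = mtf 2 - mtf (n + 2) := by
        induction n with
        | zero => simp
        | succ n ih =>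
          rw [Finset.sum_range_succ, ih]
          have h2 : n + 1 + 2 = n + 2 + 1 := by ring
          rw [h2]
          ring
      rw [h1]
      have h2 : 0 ≤ mtf (n + 2) := by
        unfold mtf
        have : (1 : ℝ) ≤ ((n + 2 : ℕ) : ℝ) := by
          push_cast
          have : (0 : ℝ) ≤ n := Nat.cast_nonneg n
          linarith
        exact one_div_nonneg.2 (Real.log_nonneg this)
      linarith
  have hs : Summable fun j : ℕ => mtc (j + 2) := by
    apply Summable.of_norm_bounded (hs0.mul_left 4)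
    intro j
    rw [Real.norm_eq_abs]
    exact mtc_abs (by omega)
  have ht := hs.hasSum.tendsto_sum_nat
  have hw : Tendsto (fun N : ℕ => mtE (N + 2) * mtf (N + 2)) atTop (𝓝 0) := by
    have h1 : Tendsto (fun N : ℕ => 3 * mtf (N + 2)) atTop (𝓝 0) := by
      have h2 : Tendsto (fun n : ℕ => Real.log (n : ℝ)) atTop atTop :=
        Real.tendsto_log_atTop.comp tendsto_natCast_atTop_atTop
      have h3 : Tendsto mtf atTop (𝓝 0) := by
        have h4 := h2.inv_tendsto_atTop
        refine h4.congr fun n => ?_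
        unfold mtf
        rw [Pi.inv_apply, one_div]
      have h5 := ((tendsto_add_atTop_iff_nat 2).2 h3).const_mul 3
      simpa using h5
    apply squeeze_zero_norm _ h1
    intro N
    rw [norm_mul, Real.norm_eq_abs, Real.norm_eq_abs]
    have h2 : 0 ≤ mtf (N + 2) := by
      unfold mtf
      have : (1 : ℝ) ≤ ((N + 2 : ℕ) : ℝ) := by
        push_cast
        have : (0 : ℝ) ≤ N := Nat.cast_nonneg N
        linarith
      exact one_div_nonneg.2 (Real.log_nonneg this)
    rw [abs_of_nonneg h2]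
    exact mul_le_mul_of_nonneg_right (mtE_abs (by omega)) h2
  refine ⟨mtu 2 - mtE 2 * mtf 2 + 0 + ∑' j, mtc (j + 2), ?_⟩
  rw [← tendsto_add_atTop_iff_nat 2]
  have h := (hw.const_add (mtu 2 - mtE 2 * mtf 2)).add ht
  refine h.congr fun N => ?_
  exact (mtu_eq N).symm

end Pool.Agent.Helper56.CP
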