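import Pool.Agent.Helper51.CP.Defs

/-! # Module CAU: Cauchy formula and functional calculus on the boundary algebra of a polygon -/

namespace Pool.Agent.Helper71.CP
open Pool.Agent.Helper51.CP
open Complex MeasureTheory Set
open scoped BoundedContinuousFunction

noncomputable section

namespace Cau

section basic

variable (P : CPoly)

instance fin_comap : IsFiniteMeasure
    (Measure.comap Subtype.val (volume : Measure ℝ) : Measure (Set.Ioo (0 : ℝ) 1)) := by
  constructor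
  rw [(MeasurableEmbedding.subtype_coe measurableSet_Ioo).comap_apply]
  refine lt_of_le_of_lt (measure_mono (t := Icc (0:ℝ) 1) ?_) (by simp)
  rintro x ⟨y, -, rfl⟩
  exact ⟨y.2.1.le, y.2.2.le⟩

instance fin_ds : IsFiniteMeasure P.ds := by
  unfold CPoly.ds
  infer_instance

/-- point of side `j` with parameter `s` -/
def pt (j : ℕ) (s : ℝ) : ℂ := P.v j + (s : ℂ) * P.side j

lemma continuous_pt (j : ℕ) : Continuous (pt P j) := by
  unfold pt; fun_prop

lemma pt_zero (j : ℕ) : pt P j 0 = P.v j := by simp [pt]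

lemma pt_one (j : ℕ) : pt P j 1 = P.v (j + 1) := by simp [pt, CPoly.side]

lemma hasDerivAt_pt (j : ℕ) (s : ℝ) : HasDerivAt (pt P j) (P.side j) s := by
  unfold pt
  have h : HasDerivAt (fun s : ℝ => (s : ℂ)) 1 s := by
    simpa using (hasDerivAt_id s).ofReal_comp
  simpa using (h.mul_const (P.side j)).const_add (P.v j)

variable {B : Type*} [NormedAddCommGroup B] [NormedSpace ℝ B]

omit [NormedSpace ℝ B] in
lemma continuous_of_sides (g : ℕ → ℝ → B) (hg : ∀ j < P.N, ContinuousOn (g j) (Icc 0 1)) :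
    Continuous (fun x : P.X => g x.1 x.2) := by
  rw [continuous_iff_continuousAt]
  rintro ⟨j, s⟩
  have h1 : ContinuousAt (fun s' : Ioo (0:ℝ) 1 => g j s') s := by
    have h2 : ContinuousAt (g j) (s : ℝ) :=
      (hg j j.2).continuousAt (Icc_mem_nhds s.2.1 s.2.2)
    exact h2.comp continuous_subtype_val.continuousAt
  have h3 : ∀ᶠ x : P.X in nhds (j, s), x.1 = j := by
    have : ({j} : Set (Fin P.N)) ×ˢ (univ : Set (Ioo (0:ℝ) 1)) ∈ nhds (j, s) :=
      prod_mem_nhds (by simp) Filter.univ_mem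
    filter_upwards [this] with x hx
    exact hx.1
  have h4 : ContinuousAt (fun x : P.X => g j x.2) (j, s) :=
    ContinuousAt.comp (f := fun x : P.X => x.2) (g := fun s' : Ioo (0:ℝ) 1 => g j s')
      (x := (j, s)) h1 continuous_snd.continuousAt
  refine h4.congr ?_
  filter_upwards [h3] with x hx
  rw [hx]

omit [NormedSpace ℝ B] in
lemma integrable_of_sides (g : ℕ → ℝ → B) (hg : ∀ j < P.N, ContinuousOn (g j) (Icc 0 1)) :
    Integrable (fun x : P.X => g x.1 x.2) P.ds := by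
  have h1 : ∀ j : Fin P.N, ∃ C, ∀ s ∈ Icc (0:ℝ) 1, ‖g j s‖ ≤ C := fun j =>
    isCompact_Icc.exists_bound_of_continuousOn (hg j j.2)
  choose C hC using h1
  refine Integrable.of_bound (continuous_of_sides P g hg).aestronglyMeasurable
    (∑ j : Fin P.N, |C j|) (Filter.Eventually.of_forall ?_)
  rintro ⟨j, s⟩
  calc ‖g j s‖ ≤ C j := hC j s ⟨s.2.1.le, s.2.2.le⟩
    _ ≤ |C j| := le_abs_self _
    _ ≤ _ := Finset.single_le_sum (f := fun j : Fin P.N => |C j|) (fun i _ => abs_nonneg _)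
      (Finset.mem_univ j)

lemma integral_sides [CompleteSpace B] (g : ℕ → ℝ → B)
    (hg : ∀ j < P.N, ContinuousOn (g j) (Icc 0 1)) :
    ∫ x : P.X, g x.1 x.2 ∂P.ds = ∑ j ∈ Finset.range P.N, ∫ s in (0:ℝ)..1, g j s := by
  have h := integrable_of_sides P g hg
  unfold CPoly.ds at h ⊢
  rw [integral_prod _ h, integral_count, Finset.sum_range]
  refine Finset.sum_congr rfl (fun j _ => ?_)
  simp only
  rw [integral_subtype_comap (μ := (volume : Measure ℝ)) measurableSet_Ioo (fun s => g j s),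
    intervalIntegral.integral_of_le zero_le_one, integral_Ioc_eq_integral_Ioo]

omit [NormedSpace ℝ B] in
/-- telescoping -/
lemma tele (r : ℕ → B) (h : r P.N = r 0) :
    ∑ j ∈ Finset.range P.N, (r (j + 1) - r j) = 0 := by
  rw [Finset.sum_range_sub, h, sub_self]

/-- integral of a derivative over the closed polygon is zero -/
lemma integral_deriv_zero [CompleteSpace B] (F F' : ℕ → ℝ → B) (r : ℕ → B)
    (hF : ∀ j < P.N, ∀ s ∈ Icc (0:ℝ) 1, HasDerivAt (F j) (F' j s) s)
    (hF' : ∀ j < P.N, ContinuousOn (F' j) (Icc 0 1))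
    (h0 : ∀ j < P.N, F j 0 = r j) (h1 : ∀ j < P.N, F j 1 = r (j + 1)) (hr : r P.N = r 0) :
    ∫ x : P.X, F' x.1 x.2 ∂P.ds = 0 := by
  rw [integral_sides P F' hF', ← tele P r hr]
  refine Finset.sum_congr rfl (fun j hj => ?_)
  have hj' := Finset.mem_range.1 hj
  rw [intervalIntegral.integral_eq_sub_of_hasDerivAt (f := F j) (f' := F' j), h0 j hj', h1 j hj']
  · intro s hs
    rw [uIcc_of_le zero_le_one] at hs
    exact hF j hj' s hs
  · exact (ContinuousOn.intervalIntegrable (by rw [uIcc_of_le zero_le_one]; exact hF' j hj'))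

omit [NormedSpace ℝ B] in
lemma quad_const (G : ℝ → B) (K : ℝ)
    (h : ∀ t ∈ Icc (0:ℝ) 1, ∀ t' ∈ Icc (0:ℝ) 1, ‖G t - G t'‖ ≤ K * |t - t'| ^ 2) : G 1 = G 0 := by
  have h1 : ∀ n : ℕ, ‖G 1 - G 0‖ ≤ K / (n + 1) := by
    intro n
    have hn : (0:ℝ) < n + 1 := by positivity
    have h2 : G 1 - G 0 = ∑ k ∈ Finset.range (n + 1),
        (G (((k + 1 : ℕ) : ℝ) / (n + 1)) - G ((k : ℝ) / (n + 1))) := by
      rw [Finset.sum_range_sub (fun k : ℕ => G ((k : ℝ) / (n + 1)))]
      simp only [Nat.cast_zero, zero_div]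
      rw [show (((n + 1 : ℕ) : ℝ) / (n + 1)) = 1 by push_cast; exact div_self hn.ne']
    rw [h2]
    refine (norm_sum_le _ _).trans ?_
    calc ∑ k ∈ Finset.range (n + 1), ‖G (((k + 1 : ℕ) : ℝ) / (n + 1)) - G ((k : ℝ) / (n + 1))‖
        ≤ ∑ k ∈ Finset.range (n + 1), K * (1 / (n + 1)) ^ 2 := by
          refine Finset.sum_le_sum (fun k hk => ?_)
          have hk' : (k : ℝ) + 1 ≤ n + 1 := by
            have := Finset.mem_range.1 hk
            exact_mod_cast this
          refine (h _ ⟨by positivity, ?_⟩ _ ⟨by positivity, ?_⟩).trans (le_of_eq ?_)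
          · rw [div_le_one hn]; push_cast; linarith
          · rw [div_le_one hn]; linarith
          · congr 2
            rw [← sub_div]; push_cast
            rw [add_sub_cancel_left, abs_of_pos (by positivity)]
      _ = K / (n + 1) := by
          rw [Finset.sum_const, Finset.card_range, nsmul_eq_mul]; push_cast
          field_simp
  have h3 : Filter.Tendsto (fun n : ℕ => K / ((n : ℝ) + 1)) Filter.atTop (nhds 0) := by
    have := (tendsto_one_div_add_atTop_nhds_zero_nat (𝕜 := ℝ)).const_mul K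
    simpa [div_eq_mul_inv] using this
  have h4 : ‖G 1 - G 0‖ ≤ 0 := ge_of_tendsto' h3 h1
  exact sub_eq_zero.1 (norm_le_zero_iff.1 h4)

end basic

section banach

variable {P : CPoly} {A : Type*} [NormedRing A] [NormedAlgebra ℂ A]

/-- resolvent of `a` at `z` -/
def rs (a : A) (z : ℂ) : A := Ring.inverse (algebraMap ℂ A z - a)

/-- `a` is admissible with constant `C` -/
def OK (P : CPoly) (a : A) (C : ℝ) : Prop := ∀ j, j < P.N → ∀ s : ℝ, 0 ≤ s → s ≤ 1 →
  IsUnit (algebraMap ℂ A (pt P j s) - a) ∧ ‖rs a (pt P j s)‖ ≤ C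

lemma rs_mul (a : A) (z : ℂ) (h : IsUnit (algebraMap ℂ A z - a)) :
    rs a z * (algebraMap ℂ A z - a) = 1 := Ring.inverse_mul_cancel _ h

lemma mul_rs (a : A) (z : ℂ) (h : IsUnit (algebraMap ℂ A z - a)) :
    (algebraMap ℂ A z - a) * rs a z = 1 := Ring.mul_inverse_cancel _ h

variable [CompleteSpace A]

lemma rs_hasDerivAt (a : A) (z : ℂ) (h : IsUnit (algebraMap ℂ A z - a)) :
    HasDerivAt (rs a) (-(rs a z * rs a z)) z := by
  obtain ⟨u, hu⟩ := h
  have h1 : HasFDerivAt (𝕜 := ℂ) Ring.inverse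
      (-ContinuousLinearMap.mulLeftRight ℂ A (↑u⁻¹ : A) (↑u⁻¹ : A)) (algebraMap ℂ A z - a) := by
    rw [← hu]; exact hasFDerivAt_ringInverse u
  have h2 : HasDerivAt (fun z : ℂ => algebraMap ℂ A z - a) 1 z := by
    have := ((Algebra.linearMap ℂ A).toContinuousLinearMap.hasDerivAt (x := z)).sub_const a
    simpa using this
  have h3 := h1.comp_hasDerivAt z h2
  have h4 : rs a z = (↑u⁻¹ : A) := by
    unfold rs; rw [← hu, Ring.inverse_unit]
  rw [h4]
  have h5 : (Ring.inverse ∘ fun z => (algebraMap ℂ A) z - a) = rs a := rfl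
  rw [h5] at h3
  simpa using h3

lemma rs_side_hasDerivAt (a : A) (j : ℕ) (s : ℝ) (h : IsUnit (algebraMap ℂ A (pt P j s) - a)) :
    HasDerivAt (fun s : ℝ => rs a (pt P j s))
      (-(P.side j • (rs a (pt P j s) * rs a (pt P j s)))) s := by
  have := (rs_hasDerivAt a _ h).scomp s (hasDerivAt_pt P j s)
  simpa [Function.comp_def] using this

lemma rs_side_continuousOn {a : A} {C : ℝ} (h : OK P a C) (j : ℕ) (hj : j < P.N) :
    ContinuousOn (fun s : ℝ => rs a (pt P j s)) (Icc 0 1) := fun s hs =>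
  (rs_side_hasDerivAt a j s (h j hj s hs.1 hs.2).1).continuousAt.continuousWithinAt

lemma int_rs_sq {a : A} {C : ℝ} (h : OK P a C) :
    ∫ x : P.X, P.dr x • (rs a (P.gm x) * rs a (P.gm x)) ∂P.ds = 0 := by
  have := integral_deriv_zero P (fun j s => -rs a (pt P j s))
    (fun j s => P.side j • (rs a (pt P j s) * rs a (pt P j s))) (fun j => -rs a (P.v j)) ?_ ?_ ?_ ?_ ?_
  · exact this
  · intro j hj s hs
    have h1 := (rs_side_hasDerivAt a j s (h j hj s hs.1 hs.2).1).fun_neg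
    simpa using h1
  · intro j hj
    have := rs_side_continuousOn h j hj
    exact (this.mul this).const_smul _
  · intro j hj; simp [pt_zero]
  · intro j hj; simp [pt_one]
  · simp [P.closed]

omit [CompleteSpace A] in
lemma ok_comm (a h : A) (z : ℂ) (hu : IsUnit (algebraMap ℂ A z - a)) (hc : Commute a h) :
    Commute (rs a z) h := by
  obtain ⟨u, hu'⟩ := hu
  have h1 : rs a z = (↑u⁻¹ : A) := by
    unfold rs; rw [← hu', Ring.inverse_unit]
  rw [h1]
  refine Commute.units_inv_left ?_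
  rw [hu']
  exact (Algebra.commute_algebraMap_left z h).sub_left hc

/-- all side parameter functions are bounded -/
def Dm (P : CPoly) : ℝ := ∑ j : Fin P.N, ‖P.side j‖

lemma dr_le (x : P.X) : ‖P.dr x‖ ≤ Dm P :=
  Finset.single_le_sum (f := fun j : Fin P.N => ‖P.side j‖) (fun _ _ => norm_nonneg _)
      (Finset.mem_univ x.1)

lemma Dm_nonneg : 0 ≤ Dm P := Finset.sum_nonneg (fun _ _ => norm_nonneg _)

lemma integrable_dr_rs {a : A} {C : ℝ} (h : OK P a C) :
    Integrable (fun x : P.X => P.dr x • rs a (P.gm x)) P.ds :=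
  integrable_of_sides P (fun j s => P.side j • rs a (pt P j s))
    (fun j hj => (rs_side_continuousOn h j hj).const_smul _)

lemma quad (a0 h : A) (C : ℝ) (hc : Commute a0 h)
    (hOK : ∀ t ∈ Icc (0:ℝ) 1, OK P (a0 + (t:ℂ) • h) C) :
    ∃ K : ℝ, ∀ t ∈ Icc (0:ℝ) 1, ∀ t' ∈ Icc (0:ℝ) 1,
      ‖(∫ x : P.X, P.dr x • rs (a0 + (t:ℂ) • h) (P.gm x) ∂P.ds) -
        ∫ x : P.X, P.dr x • rs (a0 + (t':ℂ) • h) (P.gm x) ∂P.ds‖ ≤ K * |t - t'| ^ 2 := by
  refine ⟨Dm P * (C ^ 3 * ‖h‖ ^ 2) * P.ds.real univ, ?_⟩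
  intro t ht t' ht'
  set b := a0 + (t:ℂ) • h with hb
  set b' := a0 + (t':ℂ) • h with hb'
  have hcb : Commute b h := hc.add_left ((Commute.refl h).smul_left _)
  have h1 := integrable_dr_rs (hOK t ht)
  have h2 := integrable_dr_rs (hOK t' ht')
  have h3 : Integrable (fun x : P.X => P.dr x • (rs b (P.gm x) * rs b (P.gm x))) P.ds := by
    refine integrable_of_sides P (fun j s => P.side j • (rs b (pt P j s) * rs b (pt P j s)))
      (fun j hj => ?_)
    have := rs_side_continuousOn (hOK t ht) j hj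
    exact (this.mul this).const_smul _
  have h4 := int_rs_sq (hOK t ht)
  have h5 : ∫ x : P.X, ((t - t' : ℝ) : ℂ) •
      ((P.dr x • (rs b (P.gm x) * rs b (P.gm x))) * h) ∂P.ds = 0 := by
    rw [integral_smul]
    have := ((ContinuousLinearMap.mul ℂ A).flip h).integral_comp_comm h3
    simp only [ContinuousLinearMap.flip_apply, ContinuousLinearMap.mul_apply'] at this
    rw [this, h4, zero_mul, smul_zero]
  have h6 : Integrable (fun x : P.X => ((t - t' : ℝ) : ℂ) •
      ((P.dr x • (rs b (P.gm x) * rs b (P.gm x))) * h)) P.ds :=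
    (h3.mul_const h).fun_smul _
  have h7 : (∫ x : P.X, P.dr x • rs b (P.gm x) ∂P.ds) -
        ∫ x : P.X, P.dr x • rs b' (P.gm x) ∂P.ds =
      ∫ x : P.X, (P.dr x • rs b (P.gm x) - P.dr x • rs b' (P.gm x) - ((t - t' : ℝ) : ℂ) •
      ((P.dr x • (rs b (P.gm x) * rs b (P.gm x))) * h)) ∂P.ds := by
    have h12 : Integrable (fun x : P.X => P.dr x • rs b (P.gm x) - P.dr x • rs b' (P.gm x))
      P.ds := h1.sub h2
    rw [integral_sub h12 h6, h5, sub_zero, integral_sub h1 h2]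
  rw [h7]
  have h8 : ∀ x : P.X, ‖P.dr x • rs b (P.gm x) - P.dr x • rs b' (P.gm x) - ((t - t' : ℝ) : ℂ) •
      ((P.dr x • (rs b (P.gm x) * rs b (P.gm x))) * h)‖ ≤
      Dm P * (C ^ 3 * ‖h‖ ^ 2) * |t - t'| ^ 2 := by
    intro x
    obtain ⟨hu, hn⟩ := hOK t ht x.1 x.1.2 x.2 x.2.2.1.le x.2.2.2.le
    obtain ⟨hu', hn'⟩ := hOK t' ht' x.1 x.1.2 x.2 x.2.2.1.le x.2.2.2.le
    change IsUnit (algebraMap ℂ A (P.gm x) - b) at hu
    change ‖rs b (P.gm x)‖ ≤ C at hn
    change IsUnit (algebraMap ℂ A (P.gm x) - b') at hu'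
    change ‖rs b' (P.gm x)‖ ≤ C at hn'
    set z := P.gm x
    set R := rs b z
    set R' := rs b' z
    have hcomm : R * h = h * R := ok_comm b h z hu hcb
    have e1 : R * (algebraMap ℂ A z - b) = 1 := rs_mul b z hu
    have e2 : (algebraMap ℂ A z - b') * R' = 1 := mul_rs b' z hu'
    have e3 : b - b' = ((t - t' : ℝ) : ℂ) • h := by
      rw [hb, hb']; push_cast; rw [sub_smul]; abel
    have e4 : R - R' = ((t - t' : ℝ) : ℂ) • (R * h * R') := by
      have : R - R' = R * (b - b') * R' := by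
        calc R - R' = R * ((algebraMap ℂ A z - b') * R') - (R * (algebraMap ℂ A z - b)) * R' := by
              rw [e1, e2, mul_one, one_mul]
          _ = R * (b - b') * R' := by noncomm_ring
      rw [this, e3, mul_smul_comm, smul_mul_assoc]
    have e5 : P.dr x • R - P.dr x • R' - ((t - t' : ℝ) : ℂ) • ((P.dr x • (R * R)) * h) =
        -(P.dr x • (((t - t' : ℝ) : ℂ) • ((t - t' : ℝ) : ℂ) • (R * h * (R * h * R')))) := by
      have g0 : R * R * h = R * h * R := by rw [mul_assoc, mul_assoc, hcomm]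
      have g1 : (P.dr x • (R * R)) * h = P.dr x • (R * h * R) := by rw [smul_mul_assoc, g0]
      rw [← smul_sub, e4, g1, smul_comm ((t - t' : ℝ) : ℂ) (P.dr x) (R * h * R),
        ← smul_sub, ← smul_sub,
        show R * h * R' - R * h * R = -(R * h * (R - R')) by noncomm_ring, e4, mul_smul_comm,
        smul_neg, smul_neg]
    rw [e5, norm_neg, norm_smul, norm_smul, norm_smul, Complex.norm_real, Real.norm_eq_abs]
    have f1 : ‖R * h * (R * h * R')‖ ≤ C ^ 3 * ‖h‖ ^ 2 := by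
      have hC : 0 ≤ C := (norm_nonneg _).trans hn
      calc ‖R * h * (R * h * R')‖ ≤ (‖R‖ * ‖h‖) * ((‖R‖ * ‖h‖) * ‖R'‖) :=
            (norm_mul_le _ _).trans (mul_le_mul (norm_mul_le _ _)
              ((norm_mul_le _ _).trans (mul_le_mul_of_nonneg_right (norm_mul_le _ _)
                (norm_nonneg _))) (norm_nonneg _) (by positivity))
        _ ≤ (C * ‖h‖) * ((C * ‖h‖) * C) := by gcongr
        _ = C ^ 3 * ‖h‖ ^ 2 := by ring
    calc ‖P.dr x‖ * (|t - t'| * (|t - t'| * ‖R * h * (R * h * R')‖))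
        ≤ Dm P * (|t - t'| * (|t - t'| * (C ^ 3 * ‖h‖ ^ 2))) := by
          have := dr_le x
          gcongr
          exact Dm_nonneg
      _ = _ := by ring
  calc _ ≤ Dm P * (C ^ 3 * ‖h‖ ^ 2) * |t - t'| ^ 2 * P.ds.real univ :=
        norm_integral_le_of_norm_le_const (Filter.Eventually.of_forall h8)
    _ = _ := by ring

omit [CompleteSpace A] in
/-- `ResOK` gives admissibility of all `a_t` with the same constant -/
lemma resOK_iff {a : A} (h : P.ResOK a) : ∃ C, 0 ≤ C ∧ ∀ t ∈ Icc (0:ℝ) 1,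
    OK P (algebraMap ℂ A P.z0 + (t:ℂ) • (a - algebraMap ℂ A P.z0)) C := by
  obtain ⟨C, hC⟩ := h
  refine ⟨C, ?_, fun t ht j hj s hs hs' => hC t ht.1 ht.2 j hj s hs hs'⟩
  exact (norm_nonneg _).trans (hC 0 le_rfl zero_le_one 0 P.npos 0 le_rfl zero_le_one).2

omit [CompleteSpace A] in
lemma resOK_one {a : A} (h : P.ResOK a) : ∃ C, 0 ≤ C ∧ OK P a C := by
  obtain ⟨C, h0, hC⟩ := resOK_iff h
  refine ⟨C, h0, ?_⟩
  have := hC 1 ⟨zero_le_one, le_rfl⟩
  simpa using this

omit [CompleteSpace A] in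
lemma rs_algebraMap [NormOneClass A] (z0 z : ℂ) (h : z ≠ z0) :
    rs (algebraMap ℂ A z0) z = ((z - z0)⁻¹ : ℂ) • (1 : A) := by
  have hz : z - z0 ≠ 0 := sub_ne_zero.2 h
  unfold rs
  rw [← map_sub]
  have h1 : algebraMap ℂ A (z - z0) =
      ((Units.map (algebraMap ℂ A : ℂ →* A) (Units.mk0 (z - z0) hz) : Aˣ) : A) := rfl
  rw [h1, Ring.inverse_unit, ← Algebra.algebraMap_eq_smul_one]
  rfl

lemma cauchy_one [NormOneClass A] {a : A} (h : P.ResOK a) :
    ∫ x : P.X, P.dr x • rs a (P.gm x) ∂P.ds = (2 * Real.pi * I : ℂ) • (1 : A) := by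
  obtain ⟨C, h0, hC⟩ := resOK_iff h
  have hcomm : Commute (algebraMap ℂ A P.z0) (a - algebraMap ℂ A P.z0) :=
    Algebra.commute_algebraMap_left _ _
  obtain ⟨K, hK⟩ := quad (P := P) (algebraMap ℂ A P.z0) (a - algebraMap ℂ A P.z0) C hcomm hC
  have h1 := quad_const (fun t : ℝ => ∫ x : P.X, P.dr x •
    rs (algebraMap ℂ A P.z0 + (t:ℂ) • (a - algebraMap ℂ A P.z0)) (P.gm x) ∂P.ds) K hK
  simp only [ofReal_one, one_smul, add_sub_cancel, ofReal_zero, zero_smul, add_zero] at h1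
  rw [h1]
  have hne : ∀ j < P.N, ∀ s ∈ Icc (0:ℝ) 1, pt P j s ≠ P.z0 := by
    intro j hj s hs heq
    have : Nontrivial A := NormOneClass.nontrivial
    have h2 := (hC 0 ⟨le_rfl, zero_le_one⟩ j hj s hs.1 hs.2).1
    rw [heq] at h2
    simp at h2
  have h2 : ∀ x : P.X, P.dr x • rs (algebraMap ℂ A P.z0) (P.gm x) =
      (P.dr x / (P.gm x - P.z0)) • (1 : A) := by
    intro x
    have := hne x.1 x.1.2 x.2 ⟨x.2.2.1.le, x.2.2.2.le⟩
    rw [rs_algebraMap _ _ (show P.gm x ≠ P.z0 from this), smul_smul, div_eq_mul_inv]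
  rw [integral_congr_ae (Filter.Eventually.of_forall h2), integral_smul_const]
  congr 1
  have h3 := integral_sides P (fun j s => P.side j / (pt P j s - P.z0)) (fun j hj => ?_)
  · exact h3.trans P.wind
  · refine ContinuousOn.div continuousOn_const
      ((continuous_pt P j).continuousOn.sub continuousOn_const) (fun s hs => ?_)
    exact sub_ne_zero.2 (hne j hj s hs)

/-- integrability of the Cauchy integrand -/
lemma integrable_cau {a : A} {C : ℝ} (h : OK P a C) (φ : P.X →ᵇ ℂ) :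
    Integrable (fun x : P.X => (φ x * P.dr x) • rs a (P.gm x)) P.ds := by
  have h1 := integrable_dr_rs h
  have h2 : Integrable (fun x : P.X => φ x • (P.dr x • rs a (P.gm x))) P.ds :=
    Integrable.bdd_smul h1 ‖φ‖ φ.continuous.aestronglyMeasurable
      (Filter.Eventually.of_forall (fun x => φ.norm_coe_le_norm x))
  simpa only [smul_smul] using h2

omit [CompleteSpace A] in
lemma cau_eq (a : A) (φ : P.X → ℂ) : P.Cau a φ = (2 * Real.pi * I : ℂ)⁻¹ •
    ∫ x, (φ x * P.dr x) • rs a (P.gm x) ∂P.ds := rfl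

/-- the Cauchy integral as a linear map -/
def cauL {a : A} {C : ℝ} (h : OK P a C) : (P.X →ᵇ ℂ) →ₗ[ℂ] A where
  toFun φ := P.Cau a φ
  map_add' φ ψ := by
    rw [cau_eq, cau_eq, cau_eq, ← smul_add, ← integral_add (integrable_cau h φ)
      (integrable_cau h ψ)]
    congr 1
    refine integral_congr_ae (Filter.Eventually.of_forall (fun x => ?_))
    simp only [BoundedContinuousFunction.coe_add, Pi.add_apply]
    rw [add_mul, add_smul]
  map_smul' c φ := by
    simp only [RingHom.id_apply]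
    rw [cau_eq, cau_eq, smul_comm c]
    have h1 := integral_smul (μ := P.ds) c (fun x : P.X => (φ x * P.dr x) • rs a (P.gm x))
    rw [← h1]
    congr 1
    refine integral_congr_ae (Filter.Eventually.of_forall (fun x => ?_))
    simp only [BoundedContinuousFunction.coe_smul, smul_eq_mul]
    rw [mul_assoc, mul_smul]

omit [CompleteSpace A] in
lemma cau_bound {a : A} {C : ℝ} (h : OK P a C) (φ : P.X →ᵇ ℂ) :
    ‖P.Cau a φ‖ ≤ (Dm P * C * P.ds.real univ) * ‖φ‖ := by
  rw [cau_eq, norm_smul]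
  have h1 : ∀ x : P.X, ‖(φ x * P.dr x) • rs a (P.gm x)‖ ≤ ‖φ‖ * Dm P * C := by
    intro x
    have h2 : ‖rs a (P.gm x)‖ ≤ C := (h x.1 x.1.2 x.2 x.2.2.1.le x.2.2.2.le).2
    rw [norm_smul, norm_mul]
    have h3 := dr_le x
    have h4 := φ.norm_coe_le_norm x
    have h5 := Dm_nonneg (P := P)
    gcongr
  have h5 := norm_integral_le_of_norm_le_const (μ := P.ds) (Filter.Eventually.of_forall h1)
  have h6 : ‖(2 * Real.pi * I : ℂ)⁻¹‖ ≤ 1 := by
    rw [norm_inv]
    refine inv_le_one_of_one_le₀ ?_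
    simp only [norm_mul, Complex.norm_ofNat, norm_real, norm_I, mul_one, Real.norm_eq_abs]
    rw [abs_of_pos Real.pi_pos]
    linarith [Real.pi_gt_three]
  calc _ ≤ 1 * (‖φ‖ * Dm P * C * P.ds.real univ) := by gcongr
    _ = _ := by ring

/-- the Cauchy integral as a continuous linear map -/
def cauCL {a : A} {C : ℝ} (h : OK P a C) : (P.X →ᵇ ℂ) →L[ℂ] A :=
  (cauL h).mkContinuous _ (cau_bound h)

lemma int_pow (n : ℕ) : ∫ x : P.X, P.gm x ^ n * P.dr x ∂P.ds = 0 := by
  have := integral_deriv_zero P (fun j s => pt P j s ^ (n + 1) / (n + 1))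
    (fun j s => pt P j s ^ n * P.side j) (fun j => P.v j ^ (n + 1) / (n + 1)) ?_ ?_ ?_ ?_ ?_
  · exact this
  · intro j hj s hs
    have h1 := ((hasDerivAt_pt P j s).pow (n + 1)).div_const ((n : ℂ) + 1)
    have hn : (n : ℂ) + 1 ≠ 0 := by exact_mod_cast Nat.succ_ne_zero n
    refine h1.congr_deriv ?_
    rw [Nat.add_sub_cancel]
    push_cast
    field_simp
  · intro j hj
    exact (((continuous_pt P j).pow n).mul continuous_const).continuousOn
  · intro j hj; simp [pt_zero]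
  · intro j hj; simp [pt_one]
  · simp [P.closed]

lemma cau_pow_succ {a : A} {C : ℝ} (h : OK P a C) (n : ℕ) :
    P.Cau a (fun x => P.gm x ^ (n + 1)) = a * P.Cau a (fun x => P.gm x ^ n) := by
  rw [cau_eq, cau_eq, mul_smul_comm]
  congr 1
  have h1 := integrable_cau h (P.gmB ^ n)
  have h1' : Integrable (fun x : P.X => (P.gm x ^ n * P.dr x) • rs a (P.gm x)) P.ds := by
    simpa using h1
  have h2 := (ContinuousLinearMap.mul ℂ A a).integral_comp_comm h1'
  simp only [ContinuousLinearMap.mul_apply'] at h2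
  rw [← h2]
  have h3 : ∀ x : P.X, (P.gm x ^ (n + 1) * P.dr x) • rs a (P.gm x) =
      (P.gm x ^ n * P.dr x) • (1 : A) + a * ((P.gm x ^ n * P.dr x) • rs a (P.gm x)) := by
    intro x
    have hu : IsUnit (algebraMap ℂ A (P.gm x) - a) := (h x.1 x.1.2 x.2 x.2.2.1.le x.2.2.2.le).1
    have h4 := mul_rs a _ hu
    have h5 : P.gm x • rs a (P.gm x) = 1 + a * rs a (P.gm x) := by
      rw [← h4, sub_mul, Algebra.algebraMap_eq_smul_one, smul_mul_assoc, one_mul]
      abel
    rw [show P.gm x ^ (n + 1) * P.dr x = (P.gm x ^ n * P.dr x) * P.gm x by ring, mul_smul, h5,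
      smul_add, mul_smul_comm]
  rw [integral_congr_ae (Filter.Eventually.of_forall h3)]
  have h6 : Integrable (fun x : P.X => (P.gm x ^ n * P.dr x) • (1 : A)) P.ds :=
    (integrable_of_sides P (fun j s => pt P j s ^ n * P.side j)
      (fun j _ => (((continuous_pt P j).pow n).mul continuous_const).continuousOn)).smul_const _
  have h7 : Integrable (fun x : P.X => a * ((P.gm x ^ n * P.dr x) • rs a (P.gm x))) P.ds :=
    h1'.const_mul a
  rw [integral_add h6 h7, integral_smul_const, int_pow, zero_smul, zero_add]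

lemma cau_pow [NormOneClass A] {a : A} (h : P.ResOK a) (n : ℕ) :
    P.Cau a (fun x => P.gm x ^ n) = a ^ n := by
  obtain ⟨C, h0, hC⟩ := resOK_one h
  induction n with
  | zero =>
    rw [cau_eq]
    simp only [pow_zero, one_mul]
    rw [cauchy_one h, smul_smul, inv_mul_cancel₀, one_smul]
    simp [Real.pi_ne_zero]
  | succ n ih => rw [cau_pow_succ hC, ih, pow_succ']

lemma cau_poly [NormOneClass A] {a : A} (h : P.ResOK a) {C : ℝ} (hC : OK P a C)
    (p : Polynomial ℂ) : cauL hC (Polynomial.aeval P.gmB p) = Polynomial.aeval a p := by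
  induction p using Polynomial.induction_on' with
  | add p q hp hq => rw [map_add, map_add, map_add, hp, hq]
  | monomial n c =>
    rw [Polynomial.aeval_monomial, Polynomial.aeval_monomial, Algebra.algebraMap_eq_smul_one,
      Algebra.algebraMap_eq_smul_one, smul_mul_assoc, one_mul, smul_mul_assoc, one_mul, map_smul]
    congr 1
    have := cau_pow h n
    rw [← this]
    rfl

end banach

end Cau

theorem st_CAU.{u} : ST_CAU.{u} := by
  intro P A _ _ _ _ a ha
  obtain ⟨C, h0, hC⟩ := Cau.resOK_one ha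
  set L := Cau.cauCL hC with hL
  have hLp : ∀ p : Polynomial ℂ, L (Polynomial.aeval P.gmB p) = Polynomial.aeval a p :=
    Cau.cau_poly ha hC
  have hadj : ∀ φ ∈ (Algebra.adjoin ℂ {P.gmB} : Subalgebra ℂ (P.X →ᵇ ℂ)),
      ∃ p : Polynomial ℂ, φ = Polynomial.aeval P.gmB p := by
    intro φ hφ
    rw [Algebra.adjoin_singleton_eq_range_aeval] at hφ
    obtain ⟨p, hp⟩ := hφ
    exact ⟨p, hp.symm⟩
  have hm1 : ∀ φ ∈ (Algebra.adjoin ℂ {P.gmB} : Subalgebra ℂ (P.X →ᵇ ℂ)),
      ∀ ψ ∈ (Algebra.adjoin ℂ {P.gmB} : Subalgebra ℂ (P.X →ᵇ ℂ)), L (φ * ψ) = L φ * L ψ := by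
    intro φ hφ ψ hψ
    obtain ⟨p, rfl⟩ := hadj φ hφ
    obtain ⟨q, rfl⟩ := hadj ψ hψ
    rw [← map_mul, hLp, hLp, hLp, map_mul]
  have hcl : ∀ φ, φ ∈ P.Alg ↔ φ ∈ closure
      ((Algebra.adjoin ℂ {P.gmB} : Subalgebra ℂ (P.X →ᵇ ℂ)) : Set (P.X →ᵇ ℂ)) := fun φ => Iff.rfl
  have hm2 : ∀ φ ∈ P.Alg,
      ∀ ψ ∈ (Algebra.adjoin ℂ {P.gmB} : Subalgebra ℂ (P.X →ᵇ ℂ)), L (φ * ψ) = L φ * L ψ := by
    intro φ hφ ψ hψ
    have hc : IsClosed {φ : P.X →ᵇ ℂ | L (φ * ψ) = L φ * L ψ} :=
      isClosed_eq (L.continuous.comp (continuous_id.mul continuous_const))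
        (L.continuous.mul continuous_const)
    exact closure_minimal (fun φ hφ => hm1 φ hφ ψ hψ) hc ((hcl φ).1 hφ)
  have hm3 : ∀ φ ∈ P.Alg, ∀ ψ ∈ P.Alg, L (φ * ψ) = L φ * L ψ := by
    intro φ hφ ψ hψ
    have hc : IsClosed {ψ : P.X →ᵇ ℂ | L (φ * ψ) = L φ * L ψ} :=
      isClosed_eq (L.continuous.comp (continuous_const.mul continuous_id))
        (continuous_const.mul L.continuous)
    exact closure_minimal (fun ψ hψ => hm2 φ hφ ψ hψ) hc ((hcl ψ).1 hψ)
  have hone : L 1 = 1 := by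
    have := hLp 1
    simpa using this
  refine ⟨AlgHom.ofLinearMap (L.toLinearMap.comp P.Alg.val.toLinearMap) ?_ ?_, ?_, ?_, ?_⟩
  · exact hone
  · intro φ ψ
    exact hm3 φ φ.2 ψ ψ.2
  · intro φ
    rfl
  · have := hLp Polynomial.X
    simpa using this
  · exact ⟨_, fun φ => Cau.cau_bound hC φ⟩

end

end Pool.Agent.Helper71.CP
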