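import Pool.Agent.Helper71.CP.RES1

/-! # Module RES2: resolvent bound for operators with numerical range inside the polygon -/

namespace Pool.Agent.Helper71.CP
open Pool.Agent.Helper51.CP
open Complex MeasureTheory Set

namespace Res

variable {E : Type*} [NormedAddCommGroup E] [InnerProductSpace ℂ E] [FiniteDimensional ℂ E]

lemma unit_of_bound (w : E →L[ℂ] E) (c : ℝ) (hc : 0 < c) (h : ∀ x, c * ‖x‖ ≤ ‖w x‖) :
    IsUnit w ∧ ‖Ring.inverse w‖ ≤ c⁻¹ := by
  have hinj : Function.Injective w := by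
    rw [injective_iff_map_eq_zero]
    intro x hx
    have h1 := h x
    rw [hx, norm_zero] at h1
    have h2 : ‖x‖ ≤ 0 := by
      by_contra h3
      push Not at h3
      have := mul_pos hc h3
      linarith
    exact norm_le_zero_iff.1 h2
  have hsurj : Function.Surjective w :=
    (LinearMap.injective_iff_surjective (f := w.toLinearMap)).1 hinj
  have : CompleteSpace E := FiniteDimensional.complete ℂ E
  have hu : IsUnit w := ContinuousLinearMap.isUnit_iff_bijective.2 ⟨hinj, hsurj⟩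
  refine ⟨hu, ContinuousLinearMap.opNorm_le_bound _ (inv_nonneg.2 hc.le) (fun y => ?_)⟩
  have h1 := h (Ring.inverse w y)
  have h2 : w (Ring.inverse w y) = y := by
    have h3 := Ring.mul_inverse_cancel w hu
    have h4 : (w * Ring.inverse w) y = y := by rw [h3]; rfl
    exact h4
  rw [h2] at h1
  rw [inv_mul_eq_div, le_div_iff₀ hc, mul_comm]
  exact h1

omit [FiniteDimensional ℂ E] in
lemma bound_of_unit (w : E →L[ℂ] E) (c : ℝ)
    (h : ∀ x : E, ‖x‖ = 1 → c ≤ ‖inner ℂ x (w x)‖) (x : E) : c * ‖x‖ ≤ ‖w x‖ := by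
  by_cases hx : x = 0
  · simp [hx]
  have hx' : 0 < ‖x‖ := norm_pos_iff.2 hx
  set u : E := ((‖x‖⁻¹ : ℝ) : ℂ) • x with hu
  have hun : ‖u‖ = 1 := by
    rw [hu, norm_smul, Complex.norm_real, norm_inv, norm_norm, inv_mul_cancel₀ hx'.ne']
  have h1 := h u hun
  have h2 : ‖inner ℂ u (w u)‖ ≤ ‖w u‖ := by
    have := norm_inner_le_norm (𝕜 := ℂ) u (w u)
    rwa [hun, one_mul] at this
  have h3 : ‖w u‖ = ‖x‖⁻¹ * ‖w x‖ := by
    rw [hu, map_smul, norm_smul, Complex.norm_real, norm_inv, norm_norm]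
  have h4 : c ≤ ‖x‖⁻¹ * ‖w x‖ := by rw [← h3]; exact h1.trans h2
  rw [inv_mul_eq_div, le_div_iff₀ hx'] at h4
  exact h4

end Res

open Res in
theorem st_RES2.{u} : ST_RES2.{u} := by
  intro P E _ _ _ _ B hB
  obtain ⟨η, hη, hB⟩ := hB
  have hside : ∀ j < P.N, P.side j ≠ 0 := fun j hj => sub_ne_zero.2 (P.nd j hj)
  set m : ℕ → ℝ := fun j => min (crs (P.side j) (P.z0 - P.v j)) η with hm
  have hmpos : ∀ j < P.N, 0 < m j := fun j hj => lt_min (P.inside j hj) hη
  refine ⟨∑ j ∈ Finset.range P.N, ‖P.side j‖ / m j, ?_⟩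
  intro t ht0 ht1 j hj s hs0 hs1
  set w : E →L[ℂ] E := algebraMap ℂ (E →L[ℂ] E) (P.v j + s * P.side j) -
      (algebraMap ℂ (E →L[ℂ] E) P.z0 + (t:ℂ) • (B - algebraMap ℂ (E →L[ℂ] E) P.z0)) with hw
  have h5 : 0 < m j / ‖P.side j‖ := div_pos (hmpos j hj) (norm_pos_iff.2 (hside j hj))
  have h1 : ∀ x : E, ‖x‖ = 1 → m j / ‖P.side j‖ ≤ ‖inner ℂ x (w x)‖ := by
    intro x hx
    have h2 : inner ℂ x (w x) =
        P.v j + s * P.side j - (P.z0 + (t:ℂ) * (inner ℂ x (B x) - P.z0)) := by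
      have hxx : inner ℂ x x = (1 : ℂ) := by
        rw [inner_self_eq_norm_sq_to_K, hx]; simp
      have h3 : w x = (P.v j + s * P.side j) • x - (P.z0 • x + (t:ℂ) • (B x - P.z0 • x)) := by
        rw [hw]
        simp [Algebra.algebraMap_eq_smul_one]
      rw [h3]
      simp only [inner_sub_right, inner_add_right, inner_smul_right, hxx, mul_one]
    rw [h2, div_le_iff₀ (norm_pos_iff.2 (hside j hj))]
    set w' := P.v j + s * P.side j - (P.z0 + (t:ℂ) * (inner ℂ x (B x) - P.z0)) with hw'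
    have h3 : crs (P.side j) w' = -((1 - t) * crs (P.side j) (P.z0 - P.v j) +
        t * crs (P.side j) (inner ℂ x (B x) - P.v j)) := by
      rw [hw']
      simp only [crs_add, crs_sub, crs_smul, crs_self]
      ring
    have h4 := convex_le (a := crs (P.side j) (P.z0 - P.v j)) (b := η) ht0 ht1
    have h6 : m j ≤ |crs (P.side j) w'| := by
      rw [h3, abs_neg]
      have h7 := mul_le_mul_of_nonneg_left (hB x hx j hj) ht0
      exact (h4.trans (by linarith)).trans (le_abs_self _)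
    calc m j ≤ _ := h6
      _ ≤ _ := abs_crs_le _ _
      _ = _ := mul_comm _ _
  obtain ⟨h6, h7⟩ := unit_of_bound w _ h5 (bound_of_unit w _ h1)
  refine ⟨h6, h7.trans ?_⟩
  calc (m j / ‖P.side j‖)⁻¹ = ‖P.side j‖ / m j := by rw [inv_div]
    _ ≤ _ := Finset.single_le_sum (f := fun j => ‖P.side j‖ / m j)
      (fun i hi => div_nonneg (norm_nonneg _) (hmpos i (Finset.mem_range.1 hi)).le)
      (Finset.mem_range.2 hj)

end Pool.Agent.Helper71.CP
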