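import Pool.Agent.Helper71.CP.CAU
import Pool.Agent.Helper71.CP.RES2

/-! # Module SB: the operator `Phi(phi) + Phi(alpha phi)^*` has norm at most `2 |phi|` -/

namespace Pool.Agent.Helper71.CP
open Pool.Agent.Helper51.CP
open Complex MeasureTheory Set
open scoped BoundedContinuousFunction

namespace SBm

variable {P : CPoly} {E : Type*} [NormedAddCommGroup E] [InnerProductSpace ℂ E]

/-- the sesquilinear density -/
noncomputable def mm (P : CPoly) (B : E →L[ℂ] E) (x : P.X) (u v : E) : ℂ :=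
  (2 * Real.pi * I : ℂ)⁻¹ * (inner ℂ u ((P.dr x • Cau.rs B (P.gm x)) v) -
    (starRingEnd ℂ) (inner ℂ v ((P.dr x • Cau.rs B (P.gm x)) u)))

lemma conj_twopii : (starRingEnd ℂ) ((2 * Real.pi * I : ℂ)⁻¹) = -(2 * Real.pi * I : ℂ)⁻¹ := by
  rw [map_inv₀, map_mul, map_mul, conj_I, conj_ofReal]
  rw [show (starRingEnd ℂ) 2 = (2:ℂ) from map_ofNat _ 2, mul_neg, inv_neg]

lemma mm_symm (B : E →L[ℂ] E) (x : P.X) (u v : E) :
    mm P B x v u = (starRingEnd ℂ) (mm P B x u v) := by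
  unfold mm
  rw [map_mul, conj_twopii, map_sub, conj_conj]
  ring

lemma mm_add_left (B : E →L[ℂ] E) (x : P.X) (u u' v : E) :
    mm P B x (u + u') v = mm P B x u v + mm P B x u' v := by
  unfold mm
  rw [inner_add_left, map_add, inner_add_right, map_add]
  ring

lemma mm_add_right (B : E →L[ℂ] E) (x : P.X) (u v v' : E) :
    mm P B x u (v + v') = mm P B x u v + mm P B x u v' := by
  unfold mm
  rw [inner_add_left, map_add, inner_add_right, map_add]
  ring

lemma mm_smul_right (B : E →L[ℂ] E) (x : P.X) (u v : E) (c : ℂ) :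
    mm P B x u (c • v) = c * mm P B x u v := by
  unfold mm
  rw [inner_smul_left, map_smul, inner_smul_right, map_mul, conj_conj]
  ring

lemma mm_smul_left (B : E →L[ℂ] E) (x : P.X) (u v : E) (c : ℂ) :
    mm P B x (c • u) v = (starRingEnd ℂ) c * mm P B x u v := by
  unfold mm
  rw [inner_smul_left, map_smul, inner_smul_right, map_mul]
  ring

/-- Cauchy-Schwarz in AM-GM form -/
lemma mm_amgm (B : E →L[ℂ] E) (x : P.X) (hpos : ∀ w, 0 ≤ (mm P B x w w).re) (u v : E) :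
    2 * ‖mm P B x u v‖ ≤ (mm P B x u u).re + (mm P B x v v).re := by
  set z := mm P B x u v with hz
  by_cases h0 : z = 0
  · rw [h0, norm_zero, mul_zero]
    exact add_nonneg (hpos u) (hpos v)
  have hn : (‖z‖ : ℂ) ≠ 0 := by
    rw [Ne, ofReal_eq_zero, norm_eq_zero]; exact h0
  set c : ℂ := -((starRingEnd ℂ) z / ‖z‖) with hc
  have hcc : (starRingEnd ℂ) c * c = 1 := by
    rw [hc, map_neg, map_div₀, conj_conj, conj_ofReal, neg_mul_neg, div_mul_div_comm, mul_conj,
      normSq_eq_norm_sq]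
    push_cast
    rw [← pow_two]
    exact div_self (pow_ne_zero 2 hn)
  have hcz : c * z = -(‖z‖ : ℂ) := by
    rw [hc, neg_mul, div_mul_eq_mul_div, mul_comm ((starRingEnd ℂ) z), mul_conj,
      normSq_eq_norm_sq]
    push_cast
    rw [pow_two, mul_div_assoc, div_self hn, mul_one]
  have h1 := hpos (u + c • v)
  have h2 : mm P B x (u + c • v) (u + c • v) = mm P B x u u + mm P B x v v + (c * z) +
      (starRingEnd ℂ) (c * z) := by
    rw [mm_add_left, mm_add_right, mm_add_right, mm_smul_right, mm_smul_left, mm_smul_left,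
      mm_smul_right, ← mul_assoc, hcc, one_mul, ← hz, map_mul, hz, ← mm_symm]
    ring
  rw [h2, hcz] at h1
  simp only [add_re, neg_re, ofReal_re, map_neg, conj_ofReal] at h1
  linarith

lemma re_conj_mul_nonneg (w : ℂ) : ((2 * Real.pi * I : ℂ)⁻¹ * (w - (starRingEnd ℂ) w)).re =
    w.im / Real.pi := by
  have h1 : w - (starRingEnd ℂ) w = (2 * I) * w.im := by
    rw [sub_conj]; push_cast; ring
  have hpi : (Real.pi : ℂ) ≠ 0 := by exact_mod_cast Real.pi_ne_zero
  have h2 : (2 * Real.pi * I : ℂ)⁻¹ * (w - (starRingEnd ℂ) w) = ((w.im / Real.pi : ℝ) : ℂ) := by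
    rw [h1]; push_cast
    field_simp
  rw [h2, ofReal_re]

variable [FiniteDimensional ℂ E]

lemma mm_pos (B : E →L[ℂ] E) (hB : P.InW B) (x : P.X)
    (hu : IsUnit (algebraMap ℂ (E →L[ℂ] E) (P.gm x) - B)) (w : E) : 0 ≤ (mm P B x w w).re := by
  obtain ⟨η, hη, hB⟩ := hB
  unfold mm
  rw [re_conj_mul_nonneg]
  refine div_nonneg ?_ Real.pi_pos.le
  set y : E := Cau.rs B (P.gm x) w with hy
  have h1 : w = P.gm x • y - B y := by
    have h2 := Cau.mul_rs B (P.gm x) hu
    have h3 : ((algebraMap ℂ (E →L[ℂ] E) (P.gm x) - B) * Cau.rs B (P.gm x)) w = w := by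
      rw [h2]; rfl
    rw [← h3]
    simp [Algebra.algebraMap_eq_smul_one, hy]
  have h4 : (P.dr x • Cau.rs B (P.gm x)) w = P.dr x • y := rfl
  rw [h4, inner_smul_right]
  by_cases hy0 : y = 0
  · simp [hy0]
  have hyn : 0 < ‖y‖ := norm_pos_iff.2 hy0
  have h5 : 0 ≤ crs (P.side x.1) (inner ℂ y (B y) - P.gm x * (‖y‖:ℂ) ^ 2) := by
    set y' : E := ((‖y‖⁻¹ : ℝ) : ℂ) • y with hy'
    have hyn' : ‖y'‖ = 1 := by
      rw [hy', norm_smul, Complex.norm_real, norm_inv, norm_norm, inv_mul_cancel₀ hyn.ne']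
    have h6 := hB y' hyn' x.1 x.1.2
    have h7 : inner ℂ y' (B y') = ((‖y‖⁻¹ ^ 2 : ℝ) : ℂ) * inner ℂ y (B y) := by
      rw [hy', map_smul, inner_smul_left, inner_smul_right, conj_ofReal]
      push_cast; ring
    have h8 : crs (P.side x.1) (inner ℂ y (B y) - P.gm x * (‖y‖:ℂ) ^ 2) =
        ‖y‖ ^ 2 * crs (P.side x.1) (inner ℂ y' (B y') - P.v x.1) := by
      have h9 : inner ℂ y (B y) - P.gm x * (‖y‖:ℂ) ^ 2 =
          ((‖y‖ ^ 2 : ℝ) : ℂ) * (inner ℂ y' (B y') - P.gm x) := by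
        rw [h7]
        have : (‖y‖ : ℂ) ≠ 0 := by exact_mod_cast hyn.ne'
        push_cast
        field_simp
      rw [h9, Res.crs_smul]
      congr 1
      have h10 : P.gm x = P.v x.1 + ((x.2 : ℝ) : ℂ) * P.side x.1 := rfl
      rw [h10, ← sub_sub, Res.crs_sub, Res.crs_smul, Res.crs_self, mul_zero, sub_zero]
    rw [h8]
    have : 0 ≤ crs (P.side x.1) (inner ℂ y' (B y') - P.v x.1) := hη.le.trans h6
    positivity
  have h6 : inner ℂ w y = (starRingEnd ℂ) (P.gm x * (‖y‖:ℂ) ^ 2 - inner ℂ y (B y)) := by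
    rw [h1, inner_sub_left, inner_smul_left, inner_self_eq_norm_sq_to_K, map_sub, map_mul,
      inner_conj_symm]
    simp
  rw [h6]
  have h7 : crs (P.side x.1) (inner ℂ y (B y) - P.gm x * (‖y‖:ℂ) ^ 2) =
      (P.dr x * (starRingEnd ℂ) (P.gm x * (‖y‖:ℂ) ^ 2 - inner ℂ y (B y))).im := by
    have h8 : P.dr x = P.side x.1 := rfl
    rw [h8, ← neg_sub (P.gm x * (‖y‖:ℂ) ^ 2)]
    unfold crs
    rw [mul_im, mul_im]
    simp only [conj_re, conj_im, neg_re, neg_im]
    ring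
  rw [← h7]
  exact h5

end SBm

open SBm in
theorem st_SB.{u} : ST_SB.{u} := by
  intro P E _ _ _ _ B hB φ
  have : CompleteSpace E := FiniteDimensional.complete ℂ E
  have hres := st_RES2.{u} P E B hB
  obtain ⟨C, h0, hC⟩ := Cau.resOK_one hres
  have hunit : ∀ x : P.X, IsUnit (algebraMap ℂ (E →L[ℂ] E) (P.gm x) - B) := fun x =>
    (hC x.1 x.1.2 x.2 x.2.2.1.le x.2.2.2.le).1
  have hpos : ∀ (x : P.X) (w : E), 0 ≤ (mm P B x w w).re := fun x w => mm_pos B hB x (hunit x) w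
  have hint := Cau.integrable_dr_rs hC
  -- matrix coefficients
  have hcoef : ∀ u v : E, Integrable (fun x : P.X => inner ℂ u ((P.dr x • Cau.rs B (P.gm x)) v))
      P.ds := fun u v =>
    ((innerSL ℂ u).comp (ContinuousLinearMap.apply ℂ E v)).integrable_comp hint
  have hmm : ∀ u v : E, Integrable (fun x : P.X => mm P B x u v) P.ds := by
    intro u v
    unfold mm
    have h1 : Integrable (fun x : P.X =>
        (starRingEnd ℂ) (inner ℂ v ((P.dr x • Cau.rs B (P.gm x)) u))) P.ds :=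
      (conjCLE.toContinuousLinearMap : ℂ →L[ℝ] ℂ).integrable_comp (hcoef v u)
    exact ((hcoef u v).sub h1).const_mul _
  -- total mass
  have hmass : ∀ u : E, ∫ x, (mm P B x u u).re ∂P.ds = 2 * ‖u‖ ^ 2 := by
    intro u
    have h1 : ∀ x : P.X, (mm P B x u u).re =
        (inner ℂ u ((P.dr x • Cau.rs B (P.gm x)) u)).im / Real.pi := fun x =>
      re_conj_mul_nonneg _
    rw [integral_congr_ae (Filter.Eventually.of_forall h1), integral_div]
    have h2 : ∫ x, (inner ℂ u ((P.dr x • Cau.rs B (P.gm x)) u)).im ∂P.ds =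
        (∫ x, inner ℂ u ((P.dr x • Cau.rs B (P.gm x)) u) ∂P.ds).im :=
      imCLM.integral_comp_comm (hcoef u u)
    have h3 : ∫ x, inner ℂ u ((P.dr x • Cau.rs B (P.gm x)) u) ∂P.ds =
        inner ℂ u ((∫ x, P.dr x • Cau.rs B (P.gm x) ∂P.ds) u) :=
      ((innerSL ℂ u).comp (ContinuousLinearMap.apply ℂ E u)).integral_comp_comm hint
    have h4 : ((2 * Real.pi * I : ℂ) • (1 : E →L[ℂ] E)) u = (2 * Real.pi * I : ℂ) • u := rfl
    rw [h2, h3, Cau.cauchy_one hres, h4, inner_smul_right, inner_self_eq_norm_sq_to_K]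
    have h5 : (2 * Real.pi * I : ℂ) * (‖u‖ : ℂ) ^ 2 = ((2 * Real.pi * ‖u‖ ^ 2 : ℝ) : ℂ) * I := by
      push_cast; ring
    have h6 : ((2 * Real.pi * I : ℂ) * ((‖u‖ : ℝ) : ℂ) ^ 2).im = 2 * Real.pi * ‖u‖ ^ 2 := by
      rw [h5, mul_I_im, ofReal_re]
    have h7 : ((2 * Real.pi * I : ℂ) * (RCLike.ofReal ‖u‖ : ℂ) ^ 2).im =
      2 * Real.pi * ‖u‖ ^ 2 := h6
    rw [h7]
    field_simp
  have hL : ∀ (ψ : P.X →ᵇ ℂ) (u v : E), inner ℂ u ((P.Cau B ψ) v) =
      (2 * Real.pi * I : ℂ)⁻¹ * ∫ x, ψ x * inner ℂ u ((P.dr x • Cau.rs B (P.gm x)) v) ∂P.ds := by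
    intro ψ u v
    have h1 := ((innerSL ℂ u).comp (ContinuousLinearMap.apply ℂ E v)).integral_comp_comm
      (Cau.integrable_cau hC ψ)
    have h2 : inner ℂ u ((P.Cau B ψ) v) = (2 * Real.pi * I : ℂ)⁻¹ *
        ((innerSL ℂ u).comp (ContinuousLinearMap.apply ℂ E v))
          (∫ x, (ψ x * P.dr x) • Cau.rs B (P.gm x) ∂P.ds) := by
      rw [Cau.cau_eq]
      exact inner_smul_right _ _ _
    rw [h2, ← h1]
    congr 1
    refine integral_congr_ae (Filter.Eventually.of_forall (fun x => ?_))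
    have h3 : (ψ x * P.dr x) • Cau.rs B (P.gm x) = ψ x • (P.dr x • Cau.rs B (P.gm x)) := by
      rw [mul_smul]
    change inner ℂ u (((ψ x * P.dr x) • Cau.rs B (P.gm x)) v) = _
    rw [h3]
    exact inner_smul_right _ _ _
  -- the main identity
  have hmain : ∀ u v : E, inner ℂ u ((P.Cau B φ + ContinuousLinearMap.adjoint (P.Cau B
      (fun x => (starRingEnd ℂ) (φ x)))) v) = ∫ x, φ x * mm P B x u v ∂P.ds := by
    intro u v
    set ψ : P.X →ᵇ ℂ := star φ with hψ
    have e1 : (fun x => (starRingEnd ℂ) (φ x)) = ⇑ψ := rfl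
    rw [e1]
    have e2 : inner ℂ u ((P.Cau B φ + ContinuousLinearMap.adjoint (P.Cau B ψ)) v) =
        inner ℂ u (P.Cau B φ v) + (starRingEnd ℂ) (inner ℂ v (P.Cau B ψ u)) := by
      rw [add_apply, inner_add_right, ContinuousLinearMap.adjoint_inner_right,
        inner_conj_symm]
    rw [e2, hL, hL, map_mul, conj_twopii, ← integral_conj]
    have i1 : Integrable (fun x => φ x * inner ℂ u ((P.dr x • Cau.rs B (P.gm x)) v)) P.ds :=
      (hcoef u v).bdd_mul (c := ‖φ‖) φ.continuous.aestronglyMeasurable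
        (Filter.Eventually.of_forall (fun x => φ.norm_coe_le_norm x))
    have i2' : Integrable (fun x : P.X =>
        (starRingEnd ℂ) (inner ℂ v ((P.dr x • Cau.rs B (P.gm x)) u))) P.ds :=
      (conjCLE.toContinuousLinearMap : ℂ →L[ℝ] ℂ).integrable_comp (hcoef v u)
    have i2 : Integrable (fun x => φ x *
        (starRingEnd ℂ) (inner ℂ v ((P.dr x • Cau.rs B (P.gm x)) u))) P.ds :=
      i2'.bdd_mul (c := ‖φ‖) φ.continuous.aestronglyMeasurable
        (Filter.Eventually.of_forall (fun x => φ.norm_coe_le_norm x))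
    have e3 : ∫ x, (starRingEnd ℂ) (ψ x * inner ℂ v ((P.dr x • Cau.rs B (P.gm x)) u)) ∂P.ds
        = ∫ x, φ x * (starRingEnd ℂ) (inner ℂ v ((P.dr x • Cau.rs B (P.gm x)) u)) ∂P.ds := by
      refine integral_congr_ae (Filter.Eventually.of_forall (fun x => ?_))
      simp only [map_mul]
      congr 1
      exact conj_conj _
    rw [e3, neg_mul, ← sub_eq_add_neg, ← mul_sub, ← integral_sub i1 i2, ← integral_const_mul]
    refine integral_congr_ae (Filter.Eventually.of_forall (fun x => ?_))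
    simp only [mm]
    ring
  have hbd : ∀ u v : E, ‖inner ℂ u ((P.Cau B φ + ContinuousLinearMap.adjoint (P.Cau B
      (fun x => (starRingEnd ℂ) (φ x)))) v)‖ ≤ ‖φ‖ * (‖u‖ ^ 2 + ‖v‖ ^ 2) := by
    intro u v
    rw [hmain]
    have h1 : ∀ x : P.X, ‖φ x * mm P B x u v‖ ≤
        ‖φ‖ * (((mm P B x u u).re + (mm P B x v v).re) / 2) := by
      intro x
      rw [norm_mul]
      have h2 := mm_amgm B x (hpos x) u v
      have h3 := φ.norm_coe_le_norm x
      have h4 : ‖mm P B x u v‖ ≤ ((mm P B x u u).re + (mm P B x v v).re) / 2 := by linarith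
      gcongr
    have h2 : Integrable (fun x : P.X => ‖φ‖ * (((mm P B x u u).re + (mm P B x v v).re) / 2))
        P.ds := (((hmm u u).re.add (hmm v v).re).div_const 2).const_mul _
    refine (norm_integral_le_of_norm_le h2 (Filter.Eventually.of_forall h1)).trans (le_of_eq ?_)
    have hre : ∀ w : E, Integrable (fun x => (mm P B x w w).re) P.ds := fun w => (hmm w w).re
    rw [integral_const_mul, integral_div, integral_add (hre u) (hre v), hmass, hmass]
    ring
  refine ContinuousLinearMap.opNorm_le_bound _ (by positivity) (fun v => ?_)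
  set S := P.Cau B φ + ContinuousLinearMap.adjoint (P.Cau B (fun x => (starRingEnd ℂ) (φ x)))
    with hS
  by_cases hS0 : S v = 0
  · rw [hS0, norm_zero]; positivity
  have hSn : 0 < ‖S v‖ := norm_pos_iff.2 hS0
  have hv0 : v ≠ 0 := by
    rintro rfl
    exact hS0 (map_zero S)
  have hvn : 0 < ‖v‖ := norm_pos_iff.2 hv0
  have h1 := hbd (((‖v‖ / ‖S v‖ : ℝ) : ℂ) • S v) v
  rw [inner_smul_left, conj_ofReal, inner_self_eq_norm_sq_to_K, norm_smul, norm_mul,
    Complex.norm_real, norm_div, norm_norm, norm_norm] at h1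
  have h2 : ‖((RCLike.ofReal ‖S v‖ : ℂ)) ^ 2‖ = ‖S v‖ ^ 2 := by simp
  rw [h2, div_mul_cancel₀ _ hSn.ne', div_mul_eq_mul_div, pow_two, ← mul_assoc,
    mul_div_assoc, div_self hSn.ne', mul_one] at h1
  have h3 : ‖v‖ * ‖S v‖ ≤ ‖v‖ * (2 * ‖φ‖ * ‖v‖) := by
    calc _ ≤ _ := h1
      _ = _ := by ring
  exact le_of_mul_le_mul_left h3 hvn

end Pool.Agent.Helper71.CP
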