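import Pool.Agent.Helper51.CP.Defs

/-! # Module RES1: resolvent bound for an interior point -/

namespace Pool.Agent.Helper71.CP
open Pool.Agent.Helper51.CP
open Complex MeasureTheory Set

namespace Res

lemma crs_add (a b c : ℂ) : crs a (b + c) = crs a b + crs a c := by
  simp only [crs, mul_add, add_im]

lemma crs_sub (a b c : ℂ) : crs a (b - c) = crs a b - crs a c := by
  simp only [crs, mul_sub, sub_im]

lemma crs_smul (a b : ℂ) (t : ℝ) : crs a ((t : ℂ) * b) = t * crs a b := by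
  simp only [crs, mul_im, mul_re, ofReal_re, ofReal_im]
  ring

lemma crs_self (a : ℂ) : crs a a = 0 := by
  simp only [crs, mul_im, conj_re, conj_im]
  ring

lemma abs_crs_le (a b : ℂ) : |crs a b| ≤ ‖a‖ * ‖b‖ := by
  unfold crs
  calc _ ≤ ‖(starRingEnd ℂ) a * b‖ := abs_im_le_norm _
    _ = ‖a‖ * ‖b‖ := by rw [norm_mul, RCLike.norm_conj]

lemma convex_le {a b t : ℝ} (h0 : 0 ≤ t) (h1 : t ≤ 1) : min a b ≤ (1 - t) * a + t * b := by
  have h2 : min a b ≤ a := min_le_left _ _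
  have h3 : min a b ≤ b := min_le_right _ _
  have h4 : 0 ≤ 1 - t := by linarith
  nlinarith

end Res

open Res in
theorem st_RES1 : ST_RES1 := by
  intro P z hz
  have hside : ∀ j < P.N, P.side j ≠ 0 := fun j hj => sub_ne_zero.2 (P.nd j hj)
  set m : ℕ → ℝ := fun j => min (crs (P.side j) (P.z0 - P.v j)) (crs (P.side j) (z - P.v j))
    with hm
  have hmpos : ∀ j < P.N, 0 < m j := fun j hj => lt_min (P.inside j hj) (hz j hj)
  refine ⟨∑ j ∈ Finset.range P.N, ‖P.side j‖ / m j, ?_⟩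
  intro t ht0 ht1 j hj s hs0 hs1
  set w : ℂ := P.v j + s * P.side j - (P.z0 + (t:ℂ) * (z - P.z0)) with hw
  have h1 : m j ≤ |crs (P.side j) w| := by
    have h2 : crs (P.side j) w = -((1 - t) * crs (P.side j) (P.z0 - P.v j) +
        t * crs (P.side j) (z - P.v j)) := by
      rw [hw]
      simp only [crs_add, crs_sub, crs_smul, crs_self]
      ring
    have h3 := convex_le (a := crs (P.side j) (P.z0 - P.v j)) (b := crs (P.side j) (z - P.v j))
      ht0 ht1
    rw [h2, abs_neg]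
    exact h3.trans (le_abs_self _)
  have h4 : m j / ‖P.side j‖ ≤ ‖w‖ := by
    rw [div_le_iff₀ (norm_pos_iff.2 (hside j hj))]
    calc m j ≤ _ := h1
      _ ≤ _ := abs_crs_le _ _
      _ = _ := mul_comm _ _
  have h5 : 0 < m j / ‖P.side j‖ := div_pos (hmpos j hj) (norm_pos_iff.2 (hside j hj))
  have h6 : w ≠ 0 := norm_pos_iff.1 (h5.trans_le h4)
  change IsUnit w ∧ ‖Ring.inverse w‖ ≤ _
  refine ⟨isUnit_iff_ne_zero.2 h6, ?_⟩
  rw [Ring.inverse_eq_inv, norm_inv]
  calc ‖w‖⁻¹ ≤ (m j / ‖P.side j‖)⁻¹ := by gcongr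
    _ = ‖P.side j‖ / m j := by rw [inv_div]
    _ ≤ _ := Finset.single_le_sum (f := fun j => ‖P.side j‖ / m j)
      (fun i hi => div_nonneg (norm_nonneg _) (hmpos i (Finset.mem_range.1 hi)).le)
      (Finset.mem_range.2 hj)

end Pool.Agent.Helper71.CP
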