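import Pool.Agent.Helper71.CP.CAU
import Pool.Agent.Helper71.CP.RES1

/-! # Module WT: Cauchy formula with a weight -/

namespace Pool.Agent.Helper71.CP
open Pool.Agent.Helper51.CP
open Complex MeasureTheory Set
open scoped BoundedContinuousFunction

theorem st_WT : ST_WT := by
  intro P z hz F hF G hG p hp c
  have : Nonempty P.X := ⟨(⟨0, P.npos⟩, ⟨1 / 2, by constructor <;> norm_num⟩)⟩
  have hres := st_RES1 P z hz
  obtain ⟨C, h0, hC⟩ := Cau.resOK_one hres
  set L := Cau.cauCL hC with hL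
  obtain ⟨Φ, hΦ1, hΦ2, -⟩ := st_CAU P ℂ z hres
  have hΦL : ∀ φ : P.Alg, Φ φ = L φ := hΦ1
  set g : P.Alg := ⟨P.gmB, P.gmB_mem⟩ with hg
  set u : P.Alg := Polynomial.aeval g p with hu
  have hu0 : Φ u = 0 := by
    rw [hu, ← Polynomial.aeval_algHom_apply, hΦ2]
    simpa using hp
  set U : P.X →ᵇ ℂ := (u : P.X →ᵇ ℂ) with hU
  have hUx : ∀ x, U x = p.eval (P.gm x) := by
    intro x
    have h1 : U = Polynomial.aeval P.gmB p := by
      rw [hU, hu]
      exact (Polynomial.aeval_algHom_apply P.Alg.val g p).symm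
    rw [h1]
    have h2 := Polynomial.aeval_algHom_apply
      ((BoundedContinuousFunction.toContinuousMapₐ ℂ : (P.X →ᵇ ℂ) →ₐ[ℂ] C(P.X, ℂ))) P.gmB p
    have h3 := Polynomial.aeval_algHom_apply
      (ContinuousMap.evalAlgHom ℂ ℂ x : C(P.X, ℂ) →ₐ[ℂ] ℂ)
      (BoundedContinuousFunction.toContinuousMapₐ ℂ P.gmB) p
    rw [h2] at h3
    have h4 : (ContinuousMap.evalAlgHom ℂ ℂ x) (BoundedContinuousFunction.toContinuousMapₐ ℂ P.gmB)
      = P.gm x := rfl
    rw [h4] at h3
    have h5 : Polynomial.aeval (P.gm x) p = p.eval (P.gm x) := by simp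
    rw [← h5, h3]
    rfl
  have hsum : Summable (fun k : ℕ => ((k.factorial : ℂ)⁻¹) • U ^ k) := by
    refine Summable.of_norm_bounded (Real.summable_pow_div_factorial ‖U‖) (fun k => ?_)
    rw [norm_smul, norm_inv, norm_natCast, div_eq_inv_mul]
    gcongr
    exact norm_pow_le U k
  set e : P.X →ᵇ ℂ := ∑' k : ℕ, ((k.factorial : ℂ)⁻¹) • U ^ k with he
  have hex : ∀ x, e x = Complex.exp (p.eval (P.gm x)) := by
    intro x
    have h1 := (BoundedContinuousFunction.evalCLM ℂ x).hasSum hsum.hasSum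
    have h2 : HasSum (fun k : ℕ => ((k.factorial : ℂ)⁻¹) • (U x) ^ k) (e x) := by
      simpa using h1
    rw [← h2.tsum_eq, hUx, Complex.exp_eq_exp_ℂ, NormedSpace.exp_eq_tsum ℂ]
  have hFe : L (F * e) = L F := by
    have h1 := (hsum.hasSum.mul_left F).mapL L
    have h2 : ∀ k : ℕ, L (F * (((k.factorial : ℂ)⁻¹) • U ^ k)) = if k = 0 then L F else 0 := by
      intro k
      have h3 : L (F * U ^ k) = Φ ⟨F, hF⟩ * Φ u ^ k := by
        rw [← map_pow, ← map_mul, hΦL]
        rfl
      have h4 : Φ ⟨F, hF⟩ = L F := hΦL _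
      rw [mul_smul_comm, map_smul, h3, hu0, h4]
      rcases Nat.eq_zero_or_pos k with hk | hk
      · subst hk
        simp
      · rw [if_neg hk.ne', zero_pow hk.ne', mul_zero, smul_zero]
    have h3 : HasSum (fun k : ℕ => if k = 0 then L F else 0) (L F) := hasSum_ite_eq 0 (L F)
    simp only [h2] at h1
    exact h1.unique h3
  refine ⟨?_, ?_, ?_⟩
  · have h1 : (fun x => F x * Complex.exp (p.eval (P.gm x))) = fun x => (F * e) x := by
      ext x
      rw [BoundedContinuousFunction.mul_apply, hex]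
    rw [h1]
    exact hFe
  · have h1 : (fun x => F x + c * G x) = fun x => (F + c • G) x := by
      ext x
      simp
    rw [h1]
    have h2 : L (F + c • G) = L F + c * L G := by
      rw [map_add, map_smul, smul_eq_mul]
    exact h2
  · have h1 := hΦ1 1
    rw [map_one] at h1
    exact h1.symm

end Pool.Agent.Helper71.CP
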