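import Pool.Agent.Helper51.CP.Defs

/-! # Module FIN: the finite dimensional inequality implies the theorem -/

namespace Pool.Agent.Helper71.CP
open Pool.Agent.Helper51.CP
open Complex MeasureTheory Set

namespace FINm

lemma mem_cthick {W : Set ℂ} (hW : W.Nonempty) {r : ℝ} {z : ℂ}
    (h : Metric.infDist z W ≤ r) : z ∈ Metric.cthickening r W := by
  rw [Metric.mem_cthickening_iff]
  have h1 : Metric.infEDist z W ≠ ⊤ := Metric.infEDist_ne_top hW
  rw [← ENNReal.ofReal_toReal h1]
  exact ENNReal.ofReal_le_ofReal h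

/-- the inequality on a finite dimensional space with the numerical range -/
lemma fin_case.{u} (hPOLY : ST_POLY) (hTH : ST_TH.{u}) (K : ℝ)
    (hK : ∀ (E : Type u) [NormedAddCommGroup E] [InnerProductSpace ℂ E] [FiniteDimensional ℂ E]
      [Nontrivial E] (B : E →L[ℂ] E) (P : CPoly), P.InW B → ∀ (p : Polynomial ℂ) (M : ℝ),
      (∀ x : P.X, ‖p.eval (P.gm x)‖ ≤ M) → ‖Polynomial.aeval B p‖ ≤ K * M)
    (E : Type u) [NormedAddCommGroup E] [InnerProductSpace ℂ E] [FiniteDimensional ℂ E]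
    [Nontrivial E] (B : E →L[ℂ] E) (p : Polynomial ℂ) (M : ℝ)
    (hM : ∀ x : E, ‖x‖ = 1 → ‖p.eval (inner ℂ x (B x))‖ ≤ M) :
    ‖Polynomial.aeval B p‖ ≤ K * M := by
  set W : Set ℂ := {z : ℂ | ∃ x : E, ‖x‖ = 1 ∧ z = inner ℂ x (B x)} with hW
  have hWc : Convex ℝ W := hTH E B
  have hWi : W = (fun x : E => inner ℂ x (B x)) '' Metric.sphere (0 : E) 1 := by
    ext z
    constructor
    · rintro ⟨x, hx, rfl⟩
      exact ⟨x, by simpa using hx, rfl⟩
    · rintro ⟨x, hx, rfl⟩
      exact ⟨x, by simpa using hx, rfl⟩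
  have : ProperSpace E := FiniteDimensional.proper ℂ E
  have hWk : IsCompact W := by
    rw [hWi]
    refine (isCompact_sphere (0 : E) 1).image ?_
    exact continuous_id.inner B.continuous
  have hWn : W.Nonempty := by
    obtain ⟨v, hv⟩ := exists_ne (0 : E)
    refine ⟨_, ((‖v‖⁻¹ : ℝ) : ℂ) • v, ?_, rfl⟩
    rw [norm_smul, Complex.norm_real, norm_inv, norm_norm, inv_mul_cancel₀ (norm_ne_zero_iff.2 hv)]
  have hKpos : ∀ ε : ℝ, 0 < ε → ‖Polynomial.aeval B p‖ ≤ K * (M + ε) := by
    intro ε hε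
    have hopen : IsOpen {z : ℂ | ‖p.eval z‖ < M + ε} :=
      isOpen_lt (p.continuous.norm) continuous_const
    have hsub : W ⊆ {z : ℂ | ‖p.eval z‖ < M + ε} := by
      rintro z ⟨x, hx, rfl⟩
      exact (hM x hx).trans_lt (by linarith)
    obtain ⟨r, hr, hrs⟩ := hWk.exists_cthickening_subset_open hopen hsub
    obtain ⟨P, η, hη, h1, h2⟩ := hPOLY W hWk hWc hWn r hr
    refine hK E B P ⟨η, hη, ?_⟩ p (M + ε) ?_
    · intro x hx j hj
      exact h1 _ ⟨x, hx, rfl⟩ j hj
    · intro x
      have h3 : P.gm x ∈ Metric.cthickening r W := by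
        have hc : Convex ℝ (Metric.cthickening r W) := hWc.cthickening r
        have ha := mem_cthick hWn (h2 x.1 x.1.2.le)
        have hb := mem_cthick hWn (h2 (x.1 + 1) x.1.2)
        have h4 := hc ha hb (a := 1 - (x.2 : ℝ)) (b := (x.2 : ℝ)) (by linarith [x.2.2.2])
          x.2.2.1.le (by ring)
        have h5 : P.gm x = (1 - (x.2 : ℝ)) • P.v x.1 + (x.2 : ℝ) • P.v (x.1 + 1) := by
          rw [real_smul, real_smul]
          unfold CPoly.gm CPoly.side
          push_cast
          ring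
        rw [h5]
        exact h4
      exact (hrs h3).le
  -- let epsilon tend to zero
  have h1 : Filter.Tendsto (fun ε : ℝ => K * (M + ε)) (nhdsWithin 0 (Ioi 0)) (nhds (K * (M + 0))) :=
    ((continuous_const.mul (continuous_const.add continuous_id)).tendsto 0).mono_left
      nhdsWithin_le_nhds
  rw [add_zero] at h1
  refine ge_of_tendsto h1 ?_
  filter_upwards [self_mem_nhdsWithin] with ε hε
  exact hKpos ε hε

end FINm

open FINm in
theorem st_FIN.{u} : ST_FIN.{u} := by
  intro hPOLY hTH hK H _ _ B p M hM0 hM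
  set K : ℝ := 1 + Real.sqrt (2 - eps0 / 8) with hKdef
  have hK0 : 0 ≤ K := by positivity
  refine ContinuousLinearMap.opNorm_le_bound _ (by positivity) (fun x => ?_)
  by_cases hx : x = 0
  · simp [hx]
  set V : Submodule ℂ H := Submodule.span ℂ
    ((fun j : ℕ => (B ^ j) x) '' (Finset.range (p.natDegree + 1) : Set ℕ)) with hV
  have hVf : FiniteDimensional ℂ V := by
    rw [hV]
    exact FiniteDimensional.span_of_finite ℂ ((Finset.finite_toSet _).image _)
  have hmem : ∀ j ≤ p.natDegree, (B ^ j) x ∈ V := by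
    intro j hj
    exact Submodule.subset_span ⟨j, by simpa using Nat.lt_succ_of_le hj, rfl⟩
  have hxV : x ∈ V := by simpa using hmem 0 (Nat.zero_le _)
  have hVn : Nontrivial V := ⟨⟨⟨x, hxV⟩, 0, fun h => hx (by simpa using congrArg Subtype.val h)⟩⟩
  set B' : V →L[ℂ] V := V.orthogonalProjectionOnto.comp (B.comp V.subtypeL) with hB'
  have hB'a : ∀ v : V, B' v = V.orthogonalProjectionOnto (B v) := fun v => rfl
  have hpow : ∀ j ≤ p.natDegree, (((B' ^ j) ⟨x, hxV⟩ : V) : H) = (B ^ j) x := by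
    intro j
    induction j with
    | zero => intro _; simp
    | succ j ih =>
      intro hj
      have h1 := ih (by omega)
      have h2 : (B' ^ (j + 1)) ⟨x, hxV⟩ = B' ((B' ^ j) ⟨x, hxV⟩) := by
        rw [pow_succ']; rfl
      have h3 : (B ^ (j + 1)) x = B ((B ^ j) x) := by
        rw [pow_succ']; rfl
      rw [h2, hB'a, h1, ← h3]
      have h4 := V.orthogonalProjectionOnto_mem_subspace_eq_self ⟨_, hmem (j + 1) hj⟩
      rw [h4]
  have haev : ((Polynomial.aeval B' p ⟨x, hxV⟩ : V) : H) = Polynomial.aeval B p x := by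
    rw [Polynomial.aeval_eq_sum_range, Polynomial.aeval_eq_sum_range]
    simp only [sum_apply, smul_apply]
    rw [Submodule.coe_sum]
    refine Finset.sum_congr rfl (fun j hj => ?_)
    rw [Submodule.coe_smul, hpow j (by have := Finset.mem_range.1 hj; omega)]
  have hfin := fin_case hPOLY hTH K hK V B' p M (fun v hv => ?_)
  · rw [← haev, Submodule.norm_coe]
    refine ((Polynomial.aeval B' p).le_opNorm _).trans ?_
    have h5 : ‖(⟨x, hxV⟩ : V)‖ = ‖x‖ := rfl
    rw [h5]
    gcongr
  · have h1 : inner ℂ v (B' v) = inner ℂ (v : H) (B v) := by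
      rw [hB'a, Submodule.inner_orthogonalProjectionOnto_eq_of_mem_left]
    rw [h1]
    exact hM v (by simpa using hv)

end Pool.Agent.Helper71.CP
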